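import Pool.Agent.N943.NT.Basic

set_option autoImplicit false
set_option linter.unusedSectionVars false

open Finset N943.NT

namespace Pool.Agent.Hq78.LC

variable {V : Type} [Fintype V] [DecidableEq V]

/-- depth of a vertex -/
noncomputable def dp (p : Option V → Option V) (v : V) : ℕ := dep none p (some v)

theorem dp_of_parent {p : Option V → Option V} (hp : RT none p) {v u : V} (h : p (some v) = some u) :
    dp p v = dp p u + 1 := by
  unfold dp
  rw [hp.dep_succ (by simp), h]

theorem dp_pos {p : Option V → Option V} (hp : RT none p) (v : V) : 0 < dp p v :=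
  hp.dep_pos (by simp)

/-- A set closed under taking parents. -/
def UpC (p : Option V → Option V) (Y : Finset V) : Prop :=
  ∀ v ∈ Y, ∀ u, p (some v) = some u → u ∈ Y

/-- A piece of `Y` hanging from `x`. -/
structure Pc (p : Option V → Option V) (Y : Finset V) (x : Option V) (W : Finset V) : Prop where
  sub : W ⊆ Y
  inner : ∀ w ∈ W, p (some w) = x ∨ ∃ u ∈ W, p (some w) = some u
  down : ∀ y ∈ Y, ∀ w ∈ W, p (some y) = some w → y ∈ W

theorem exists_piece {p : Option V → Option V} (hp : RT none p) {Y : Finset V} (hY : UpC p Y)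
    {a : ℕ} (ha : 1 ≤ a) (haY : a ≤ Y.card) :
    ∃ x W, Pc p Y x W ∧ a ≤ W.card ∧ W.card < 2 * a := by
  classical
  have hY0 : Pc p Y none Y := by
    refine ⟨Subset.refl _, fun w hw => ?_, fun y hy _ _ _ => hy⟩
    cases h : p (some w) with
    | none => exact Or.inl rfl
    | some u => exact Or.inr ⟨u, hY w hw u h, rfl⟩
  set F : Finset (Finset V) := Y.powerset.filter (fun W => a ≤ W.card ∧ ∃ x, Pc p Y x W) with hF
  have hFne : F.Nonempty := ⟨Y, by
    rw [hF, mem_filter, mem_powerset]; exact ⟨Subset.refl _, haY, none, hY0⟩⟩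
  obtain ⟨W, hW, hmin⟩ := exists_min_image F card hFne
  rw [hF, mem_filter, mem_powerset] at hW
  obtain ⟨hWY, haW, x, hx⟩ := hW
  refine ⟨x, W, hx, haW, ?_⟩
  by_contra hcon
  push Not at hcon
  have hmin' : ∀ (x' : Option V) (W' : Finset V), Pc p Y x' W' → a ≤ W'.card → W.card ≤ W'.card := by
    intro x' W' h1 h2
    refine hmin W' ?_
    rw [hF, mem_filter, mem_powerset]
    exact ⟨h1.sub, h2, x', h1⟩
  have hWne : W.Nonempty := by rw [← card_pos]; omega
  obtain ⟨c, hc, hcmin⟩ := exists_min_image W (dp p) hWne
  have hpc : p (some c) = x := by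
    rcases hx.inner c hc with h1 | ⟨u, hu, h1⟩
    · exact h1
    · have h2 := dp_of_parent hp h1
      have h3 := hcmin u hu
      omega
  -- `x` is not in `W`, and not below `c`
  have hxc : ∀ w, x = some w → dp p c = dp p w + 1 := fun w hw => dp_of_parent hp (hpc.trans hw)
  set D : Finset V := W.filter (fun w => Anc p (some c) (some w)) with hD
  have hcD : c ∈ D := by rw [hD, mem_filter]; exact ⟨hc, Anc.refl _⟩
  have hDW : D ⊆ W := filter_subset _ _
  have hW1 : Pc p Y x (W \ D) := by
    refine ⟨sdiff_subset.trans hx.sub, fun w hw => ?_, fun y hy w hw hyw => ?_⟩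
    · rw [mem_sdiff] at hw
      rcases hx.inner w hw.1 with h1 | ⟨u, hu, h1⟩
      · exact Or.inl h1
      · refine Or.inr ⟨u, ?_, h1⟩
        rw [mem_sdiff]
        refine ⟨hu, fun huD => hw.2 ?_⟩
        rw [hD, mem_filter] at huD ⊢
        refine ⟨hw.1, huD.2.trans ?_⟩
        rw [← h1]
        exact Anc.parent _
    · rw [mem_sdiff] at hw ⊢
      have h1 := hx.down y hy w hw.1 hyw
      refine ⟨h1, fun hyD => ?_⟩
      rw [hD, mem_filter] at hyD
      rcases hyD.2.cases with h2 | h2
      · have h3 : c = y := by simpa using h2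
        subst h3
        have h4 := hxc w (hpc.symm.trans hyw)
        have h5 := hcmin w hw.1
        omega
      · rw [hyw] at h2
        exact hw.2 (by rw [hD, mem_filter]; exact ⟨hw.1, h2⟩)
  have hcard1 : (W \ D).card + D.card = W.card := card_sdiff_add_card_eq_card hDW
  have hDpos : 0 < D.card := card_pos.2 ⟨c, hcD⟩
  have h1 : (W \ D).card < a := by
    by_contra h2
    push Not at h2
    have := hmin' x _ hW1 h2
    omega
  have hD2 : Pc p Y (some c) (D.erase c) := by
    refine ⟨(erase_subset _ _).trans (hDW.trans hx.sub), fun w hw => ?_, fun y hy w hw hyw => ?_⟩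
    · rw [mem_erase, hD, mem_filter] at hw
      obtain ⟨hwc, hwW, hanc⟩ := hw
      have h3 : Anc p (some c) (p (some w)) := by
        rcases hanc.cases with h4 | h4
        · exact absurd (by simpa using h4.symm) hwc
        · exact h4
      rcases hx.inner w hwW with h5 | ⟨u, hu, h5⟩
      · rw [h5] at h3
        cases hxe : x with
        | none =>
          rw [hxe] at h3
          have := Anc.root_of hp h3
          simp at this
        | some w' =>
          rw [hxe] at h3
          have h6 := hxc w' hxe
          have h7 := Anc.dep_le hp h3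
          change dp p c ≤ dp p w' at h7
          omega
      · by_cases huc : u = c
        · left; rw [h5, huc]
        · right
          refine ⟨u, ?_, h5⟩
          rw [mem_erase, hD, mem_filter]
          exact ⟨huc, hu, by rwa [h5] at h3⟩
    · rw [mem_erase, hD, mem_filter] at hw ⊢
      obtain ⟨hwc, hwW, hanc⟩ := hw
      have h3 := hx.down y hy w hwW hyw
      have h4 : Anc p (some c) (some y) := by
        have : Anc p (some w) (some y) := by rw [← hyw]; exact Anc.parent _
        exact hanc.trans this
      refine ⟨?_, h3, h4⟩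
      rintro rfl
      have h5 := Anc.dep_le hp hanc
      have h6 := dp_of_parent hp hyw
      change dp p y ≤ dp p w at h5
      omega
  have h2 : a ≤ (D.erase c).card := by
    rw [card_erase_of_mem hcD]; omega
  have h3 := hmin' _ _ hD2 h2
  rw [card_erase_of_mem hcD] at h3
  omega

/-- The good pairs: `u` is a proper ancestor of `v` at distance less than `L` and `uv` is in `E`. -/
noncomputable def gp (E : Finset (Sym2 V)) (p : Option V → Option V) (L : ℕ) : Finset (V × V) := by
  classical
  exact univ.filter (fun e => s(e.1, e.2) ∈ E ∧ Anc p (some e.1) (some e.2) ∧ dp p e.1 < dp p e.2 ∧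
    dp p e.2 < dp p e.1 + L)

theorem mem_gp {E : Finset (Sym2 V)} {p : Option V → Option V} {L : ℕ} {e : V × V} :
    e ∈ gp E p L ↔ s(e.1, e.2) ∈ E ∧ Anc p (some e.1) (some e.2) ∧ dp p e.1 < dp p e.2 ∧
    dp p e.2 < dp p e.1 + L := by
  unfold gp; simp

/-- the good pairs whose lower end is in `W` -/
noncomputable def gpW (E : Finset (Sym2 V)) (p : Option V → Option V) (L : ℕ) (W : Finset V) :
    Finset (V × V) := (gp E p L).filter (fun e => e.2 ∈ W)

theorem mem_gpW {E : Finset (Sym2 V)} {p : Option V → Option V} {L : ℕ} {W : Finset V}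
    {e : V × V} : e ∈ gpW E p L W ↔ e ∈ gp E p L ∧ e.2 ∈ W := by
  unfold gpW; simp

theorem gpW_fiber_le {p : Option V → Option V} (hp : RT none p) (E : Finset (Sym2 V)) (L : ℕ)
    (W : Finset V) : (gpW E p L W).card ≤ L * W.card := by
  classical
  have h1 : ∀ v ∈ W, ((gpW E p L W).filter (fun e => e.2 = v)).card ≤ L := by
    intro v _
    have : ((gpW E p L W).filter (fun e => e.2 = v)).card ≤ (range L).card := by
      apply card_le_card_of_injOn (fun e => dp p e.2 - dp p e.1)
      · intro e he
        rw [mem_coe, mem_filter, mem_gpW, mem_gp] at he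
        rw [mem_coe, mem_range]
        have := he.1.1.2.2
        show dp p e.2 - dp p e.1 < L
        omega
      · intro e he e' he' heq
        rw [mem_coe, mem_filter, mem_gpW, mem_gp] at he he'
        simp only at heq
        have h2 : e.2 = e'.2 := he.2.trans he'.2.symm
        have h3 : dp p e.1 = dp p e'.1 := by
          have h4 := he.1.1.2.2
          have h5 := he'.1.1.2.2
          rw [h2] at h4 heq
          omega
        have h4 : Anc p (some e'.1) (some e.2) := by rw [h2]; exact he'.1.1.2.1
        have h5 := Anc.eq_of_dep_eq hp he.1.1.2.1 h4 h3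
        exact Prod.ext (by simpa using h5) h2
    rwa [card_range] at this
  have h2 := card_eq_sum_card_fiberwise (f := fun e : V × V => e.2) (s := gpW E p L W) (t := W)
    (fun e he => (mem_gpW.1 he).2)
  rw [h2]
  calc ∑ b ∈ W, ((gpW E p L W).filter (fun e => e.2 = b)).card ≤ ∑ _b ∈ W, L := sum_le_sum h1
    _ = _ := by rw [sum_const, smul_eq_mul, mul_comm]

theorem gp_total {p : Option V → Option V} (hp : RT none p) (E : Finset (Sym2 V)) (L : ℕ)
    {a : ℕ} (ha : 1 ≤ a) {c : ℝ} (hc : 0 ≤ c)
    (h : ∀ (Y : Finset V) (x : Option V) (W : Finset V), Pc p Y x W → a ≤ W.card →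
      W.card < 2 * a → ((gpW E p L W).card : ℝ) ≤ c * W.card) :
    ∀ Y : Finset V, UpC p Y → ((gpW E p L Y).card : ℝ) ≤ c * Y.card + a * L := by
  intro Y
  induction Y using Finset.strongInduction with
  | H Y ih =>
    intro hY
    by_cases hcard : a ≤ Y.card
    · obtain ⟨x, W, hW, h1, h2⟩ := exists_piece hp hY ha hcard
      have h3 := h Y x W hW h1 h2
      have hWne : W.Nonempty := by rw [← card_pos]; omega
      have h4 : Y \ W ⊂ Y := sdiff_ssubset hW.sub hWne
      have hY' : UpC p (Y \ W) := by
        intro v hv u hu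
        rw [mem_sdiff] at hv ⊢
        refine ⟨hY v hv.1 u hu, fun huW => hv.2 (hW.down v hv.1 u huW hu)⟩
      have h5 := ih _ h4 hY'
      have h6 : (gpW E p L Y).card = (gpW E p L W).card + (gpW E p L (Y \ W)).card := by
        rw [← card_union_of_disjoint]
        · congr 1
          ext e
          rw [mem_union, mem_gpW, mem_gpW, mem_gpW, mem_sdiff]
          constructor
          · rintro ⟨h7, h8⟩
            by_cases h9 : e.2 ∈ W
            · exact Or.inl ⟨h7, h9⟩
            · exact Or.inr ⟨h7, h8, h9⟩
          · rintro (⟨h7, h8⟩ | ⟨h7, h8, _⟩)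
            · exact ⟨h7, hW.sub h8⟩
            · exact ⟨h7, h8⟩
        · rw [disjoint_left]
          intro e he he'
          rw [mem_gpW] at he he'
          exact (mem_sdiff.1 he'.2).2 he.2
      have h7 : (Y.card : ℝ) = W.card + (Y \ W).card := by
        have := card_sdiff_add_card_eq_card hW.sub
        rw [← this]; push_cast; ring
      rw [h6, h7]
      push_cast
      linarith
    · push Not at hcard
      have h1 := gpW_fiber_le hp E L Y
      have h2 : ((gpW E p L Y).card : ℝ) ≤ L * Y.card := by exact_mod_cast h1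
      have h3 : (Y.card : ℝ) ≤ a := by exact_mod_cast hcard.le
      have h4 : (L : ℝ) * Y.card ≤ L * a := mul_le_mul_of_nonneg_left h3 (Nat.cast_nonneg _)
      have h5 : 0 ≤ c * Y.card := by positivity
      linarith

/-- The vertices reached from a piece within distance less than `L`. -/
theorem reach {p : Option V → Option V} {Y W : Finset V} {x : Option V}
    (hW : Pc p Y x W) {L : ℕ} : ∀ (t : ℕ), t < L → ∀ v ∈ W, ∀ u : V, p^[t] (some v) = some u →
      u ∈ W ∨ ∃ j < L, p^[j] x = some u := by
  intro t
  induction t with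
  | zero =>
    intro _ v hv u hu
    rw [Function.iterate_zero, id] at hu
    left
    have : v = u := by simpa using hu
    rwa [← this]
  | succ t ih =>
    intro ht v hv u hu
    rw [Function.iterate_succ_apply] at hu
    rcases hW.inner v hv with h1 | ⟨w, hw, h1⟩
    · rw [h1] at hu
      exact Or.inr ⟨t, by omega, hu⟩
    · rw [h1] at hu
      exact ih (by omega) w hw u hu

/-- A dense spot. -/
theorem dense_spot {p : Option V → Option V} (hp : RT none p) (E : Finset (Sym2 V)) (L : ℕ)
    {a : ℕ} (ha : 1 ≤ a) {c : ℝ} (hc : 0 ≤ c)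
    (h : c * Fintype.card V + a * L < (gp E p L).card) :
    ∃ W X : Finset V, W ⊆ X ∧ a ≤ W.card ∧ W.card < 2 * a ∧ X.card ≤ W.card + L ∧
      c * W.card < (E.filter (fun e => ∀ x ∈ e, x ∈ X)).card := by
  classical
  by_contra hcon
  push Not at hcon
  have h1 := gp_total hp E L ha hc (fun Y x W hW h1 h2 => ?_) univ (fun v _ u _ => mem_univ u)
  · have h2 : gpW E p L univ = gp E p L := by
      ext e; rw [mem_gpW]; simp
    rw [h2, card_univ] at h1
    linarith
  · set P : Finset V := univ.filter (fun u => ∃ j < L, p^[j] x = some u) with hP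
    have hPc : P.card ≤ L := by
      have h3 : P.card ≤ (range L).card := by
        have h4 : ∀ u ∈ P, ∃ j, j ∈ range L ∧ p^[j] x = some u := by
          intro u hu
          rw [hP, mem_filter] at hu
          obtain ⟨j, hj, hju⟩ := hu.2
          exact ⟨j, mem_range.2 hj, hju⟩
        have h5 : ∀ u : V, ∃ j, u ∈ P → j ∈ range L ∧ p^[j] x = some u := by
          intro u
          by_cases hu : u ∈ P
          · obtain ⟨j, hj⟩ := h4 u hu
            exact ⟨j, fun _ => hj⟩
          · exact ⟨0, fun h => absurd h hu⟩
        choose f hf using h5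
        refine card_le_card_of_injOn f (fun u hu => (hf u hu).1) ?_
        intro u hu u' hu' heq
        have h6 := (hf u hu).2
        have h7 := (hf u' hu').2
        rw [heq, h7] at h6
        simpa using h6.symm
      rwa [card_range] at h3
    have hX : (W ∪ P).card ≤ W.card + L := (card_union_le _ _).trans (by omega)
    have h3 := hcon W (W ∪ P) subset_union_left h1 h2 hX
    refine le_trans ?_ h3
    have h4 : (gpW E p L W).card ≤ (E.filter (fun e => ∀ x ∈ e, x ∈ W ∪ P)).card := by
      apply card_le_card_of_injOn (fun e => s(e.1, e.2))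
      · intro e he
        rw [mem_coe, mem_gpW, mem_gp] at he
        obtain ⟨⟨he1, he2, he3, he4⟩, he5⟩ := he
        rw [mem_coe, mem_filter]
        refine ⟨he1, fun y hy => ?_⟩
        rw [Sym2.mem_iff] at hy
        rcases hy with rfl | rfl
        · obtain ⟨h5, h6⟩ := Anc.iter_eq hp he2
          have h7 := reach hW (L := L) (dp p e.2 - dp p e.1) (by omega) e.2 he5 e.1 h6
          rw [mem_union, hP, mem_filter]
          rcases h7 with h7 | h7
          · exact Or.inl h7
          · exact Or.inr ⟨mem_univ _, h7⟩
        · exact mem_union_left _ he5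
      · intro e he e' he' heq
        rw [mem_coe, mem_gpW, mem_gp] at he he'
        simp only [Sym2.eq_iff] at heq
        rcases heq with ⟨h5, h6⟩ | ⟨h5, h6⟩
        · exact Prod.ext h5 h6
        · exfalso
          have h7 := he.1.2.2.1
          have h8 := he'.1.2.2.1
          rw [h5, h6] at h7
          omega
    exact_mod_cast h4

end Pool.Agent.Hq78.LC
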