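import Pool.Agent.N749.NT.Reroot
import Pool.Agent.Helper231.LC.ListCyc
import Pool.Agent.Hq78.LC.Piece

set_option autoImplicit false
set_option linter.unusedSectionVars false

open Finset N943.NT

namespace Pool.Agent.Hq78.LC

variable {V : Type} [Fintype V] [DecidableEq V]

/-- `H` has a cycle of length at least `l`. -/
def HasCyc (l : ℕ) (H : SimpleGraph V) : Prop :=
  ∃ (v : V) (c : H.Walk v v), c.IsCycle ∧ l ≤ c.length

/-- The graph with an additional vertex joined to all others. -/
def apex (H : SimpleGraph V) : SimpleGraph (Option V) where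
  Adj x y := match x, y with
    | none, none => False
    | none, some _ => True
    | some _, none => True
    | some u, some v => H.Adj u v
  symm := ⟨by
    rintro (_ | u) (_ | v) h
    · exact h
    · trivial
    · trivial
    · exact (H.adj_comm u v).1 h⟩
  loopless := ⟨by
    rintro (_ | u) h
    · exact h
    · exact H.loopless.irrefl u h⟩

theorem apex_some {H : SimpleGraph V} {u v : V} : (apex H).Adj (some u) (some v) ↔ H.Adj u v :=
  Iff.rfl

theorem apex_connected (H : SimpleGraph V) : (apex H).Connected := by
  have h1 : ∀ x : Option V, (apex H).Reachable x none := by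
    rintro (_ | u)
    · exact SimpleGraph.Reachable.refl _
    · exact SimpleGraph.Adj.reachable (show (apex H).Adj (some u) none from trivial)
  exact ⟨fun x y => (h1 x).trans (h1 y).symm⟩

/-- A long vertical edge gives a long cycle. -/
theorem cyc_of_vertical {H : SimpleGraph V} {p : Option V → Option V} (hp : RT none p)
    (hin : InG (apex H) p) {u v : V} (huv : H.Adj u v) (hanc : Anc p (some u) (some v)) {l : ℕ}
    (hl : 3 ≤ l) (hd : dp p u + l ≤ dp p v + 1) : HasCyc l H := by
  obtain ⟨h1, h2⟩ := Anc.iter_eq hp hanc
  set t := dep none p (some v) - dep none p (some u) with ht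
  have hlt : l ≤ t + 1 := by
    unfold dp at hd; omega
  have hdep : ∀ i ≤ t, dep none p (p^[i] (some v)) + i = dep none p (some v) := fun i hi =>
    hp.dep_iter i (some v) (by omega)
  have hpos : 0 < dep none p (some u) := dp_pos hp u
  set w : ℕ → V := fun i => (p^[i] (some v)).getD v with hw
  have hws : ∀ i ≤ t, p^[i] (some v) = some (w i) := by
    intro i hi
    have h3 := hdep i hi
    cases h4 : p^[i] (some v) with
    | none =>
      rw [h4, dep_root] at h3
      omega
    | some y => simp [hw, h4]
  have hw0 : w 0 = v := by simp [hw]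
  have hwt : w t = u := by
    have := hws t le_rfl
    rw [h2] at this
    simpa using this.symm
  have hadj : ∀ i, i + 1 ≤ t → H.Adj (w i) (w (i + 1)) := by
    intro i hi
    rw [← apex_some, ← hws i (by omega), ← hws (i + 1) hi, Function.iterate_succ_apply']
    apply hin
    intro h3
    have h4 := hp.eq_root_of_fix h3
    rw [hws i (by omega)] at h4
    simp at h4
  set lst : List V := (List.range (t + 1)).map w with hlst
  have hlen : lst.length = t + 1 := by simp [hlst]
  have hnd : lst.Nodup := by
    rw [hlst, List.nodup_map_iff_inj_on List.nodup_range]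
    intro i hi j hj hij
    rw [List.mem_range] at hi hj
    have h3 := hdep i (by omega)
    have h4 := hdep j (by omega)
    rw [hws i (by omega)] at h3
    rw [hws j (by omega), ← hij] at h4
    omega
  have hch : List.IsChain H.Adj lst := by
    rw [List.isChain_iff_getElem]
    intro i hi
    rw [hlen] at hi
    simp only [hlst, List.getElem_map, List.getElem_range]
    exact hadj i (by omega)
  have hcl : ∀ x ∈ lst.getLast?, ∀ y ∈ lst.head?, H.Adj x y := by
    intro x hx y hy
    have h3 : lst.getLast? = some (w t) := by
      rw [hlst, List.getLast?_map, List.getLast?_range]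
      simp
    have h4 : lst.head? = some (w 0) := by
      rw [hlst, List.head?_map, List.head?_range]
      simp
    rw [h3] at hx
    rw [h4] at hy
    have h5 : w t = x := by simpa using hx
    have h6 : w 0 = y := by simpa using hy
    rw [← h5, ← h6, hw0, hwt]
    exact huv
  obtain ⟨a, c, hc, hclen, _⟩ := Pool.Agent.Helper231.LC.Lc.list_cycle H lst (by omega) hnd hch hcl
  exact ⟨a, c, hc, by omega⟩

/-- the parent function on `Option V` given by its values on `V` -/
def ext (ρ : V → Option V) : Option V → Option V := fun x => x.bind ρ

theorem ext_some (ρ : V → Option V) (v : V) : ext ρ (some v) = ρ v := rfl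
theorem ext_none (ρ : V → Option V) : ext ρ none = none := rfl

/-- the tree edges -/
def te (ρ : V → Option V) : Finset (Sym2 V) :=
  (univ.filter (fun v => ρ v ≠ none)).image (fun v => s(v, (ρ v).getD v))

/-- the bad edges of `E` -/
noncomputable def bad (E : Finset (Sym2 V)) (ρ : V → Option V) (L : ℕ) : Finset (Sym2 V) := by
  classical
  exact E.filter (fun e => ¬ ∃ x ∈ gp E (ext ρ) L, e = s(x.1, x.2))

/-- A random graph without long cycles has a spanning tree with the required properties. -/
theorem exists_tree {H : SimpleGraph V} {l : ℕ} (hl : 3 ≤ l) (hno : ¬ HasCyc l H)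
    (S E : Finset (Sym2 V)) (hS : ∀ u v, H.Adj u v ↔ s(u, v) ∈ S ∧ u ≠ v) (hSE : S ⊆ E)
    (hE : ∀ e ∈ E, ¬ e.IsDiag) :
    ∃ ρ : V → Option V, RT none (ext ρ) ∧ (∀ v u, ρ v = some u → s(v, u) ∈ S) ∧
      te ρ ⊆ S ∧ Disjoint S (bad E ρ (l - 1)) := by
  obtain ⟨p, hp, hin, hnorm⟩ := N749.NT.exNormal (Option V) (apex H) none (apex_connected H)
  have hpe : ext (fun v => p (some v)) = p := by
    funext x
    cases x with
    | none => exact hp.1.symm
    | some v => rfl
  have hparent : ∀ v u, p (some v) = some u → s(v, u) ∈ S := by
    intro v u h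
    have h1 : p (some v) ≠ some v := fun h2 => by
      have := hp.eq_root_of_fix h2
      simp at this
    have h2 := hin (some v) h1
    rw [h, apex_some, hS] at h2
    exact h2.1
  refine ⟨fun v => p (some v), by rwa [hpe], hparent, ?_, ?_⟩
  · intro e he
    rw [te, mem_image] at he
    obtain ⟨v, hv, rfl⟩ := he
    rw [mem_filter] at hv
    cases h : p (some v) with
    | none => exact absurd h hv.2
    | some u =>
      simp only [Option.getD_some]
      exact hparent v u h
  · rw [disjoint_left]
    intro e heS heB
    unfold bad at heB
    rw [mem_filter, hpe] at heB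
    apply heB.2
    induction e using Sym2.ind with
    | _ u v =>
      have hne : u ≠ v := fun h => hE _ (hSE heS) (by simpa using h)
      have hadj : H.Adj u v := (hS u v).2 ⟨heS, hne⟩
      have key : ∀ u v : V, u ≠ v → s(u, v) ∈ S → H.Adj u v → Anc p (some u) (some v) →
          (u, v) ∈ gp E p (l - 1) := by
        intro u v hne huvS hadj hanc
        rw [mem_gp]
        refine ⟨hSE huvS, hanc, ?_, ?_⟩
        · exact Anc.dep_lt hp hanc (by simpa using hne)
        · by_contra hcon
          push Not at hcon
          change dp p u + (l - 1) ≤ dp p v at hcon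
          exact hno (cyc_of_vertical hp hin hadj hanc hl (by omega))
      rcases hnorm (some u) (some v) hadj with h1 | h1
      · exact ⟨(u, v), key u v hne heS hadj h1, rfl⟩
      · exact ⟨(v, u), key v u hne.symm (by rwa [Sym2.eq_swap]) hadj.symm h1, Sym2.eq_swap⟩

end Pool.Agent.Hq78.LC
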