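import Pool.Agent.Hq78.LC.Link

set_option autoImplicit false
set_option linter.unusedSectionVars false

open Finset

namespace Pool.Agent.Hq78.LC

variable {V : Type} [DecidableEq V]

theorem Star.mono {R : SimpleGraph V} {g : ℕ} {A B A' B' : Finset V} (h : Star R g A B)
    (hA : A' ⊆ A) (hB : B' ⊆ B) : Star R g A' B' := fun A'' h1 B'' h2 h3 h4 =>
  h A'' (h1.trans hA) B'' (h2.trans hB) h3 h4

theorem Star.symm {R : SimpleGraph V} {g : ℕ} {A B : Finset V} (h : Star R g A B) :
    Star R g B A := fun A'' h1 B'' h2 h3 h4 => by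
  obtain ⟨a, ha, b, hb, hab⟩ := h B'' h2 A'' h1 h4 h3
  exact ⟨b, hb, a, ha, hab.symm⟩

/-- A path of clusters gives a long closed list. -/
theorem clusters [Nonempty V] {R : SimpleGraph V} {t h g : ℕ} (ht : 1 ≤ t) (hg : 1 ≤ g)
    (hgh : 5 * g ≤ h) (U : ℕ → Finset V) (hU : ∀ j ≤ t, 2 * h ≤ (U j).card)
    (hdis : ∀ i ≤ t, ∀ j ≤ t, i ≠ j → Disjoint (U i) (U j))
    (hs : ∀ j < t, Star R g (U j) (U (j + 1))) :
    ∃ l : List V, l.Nodup ∧ l.IsChain R.Adj ∧
      (∀ x ∈ l.getLast?, ∀ y ∈ l.head?, R.Adj x y) ∧ t * (2 * h - 8 * g) ≤ l.length := by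
  have hex : ∀ j, ∃ X Y : Finset V, j ≤ t → (X ⊆ U j ∧ Y ⊆ U j ∧ Disjoint X Y ∧ X.card = h ∧
      Y.card = h) := by
    intro j
    by_cases hj : j ≤ t
    · have h1 := hU j hj
      obtain ⟨X, hX, hXc⟩ := exists_subset_card_eq (s := U j) (n := h) (by omega)
      have h2 : h ≤ (U j \ X).card := by
        rw [card_sdiff_of_subset hX, hXc]; omega
      obtain ⟨Y, hY, hYc⟩ := exists_subset_card_eq h2
      refine ⟨X, Y, fun _ => ⟨hX, hY.trans sdiff_subset, ?_, hXc, hYc⟩⟩
      exact disjoint_sdiff.mono_right hY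
    · exact ⟨∅, ∅, fun h => absurd h hj⟩
  choose X Y hXY using hex
  set lv : ℕ → ℕ := fun j => if j ≤ t then j else 2 * t - j with hlv
  set C : ℕ → Finset V := fun j => if j ≤ t then X j else Y (2 * t - j) with hC
  have hlvt : ∀ j < 2 * t, lv j ≤ t := by
    intro j hj
    simp only [hlv]
    split_ifs <;> omega
  have hCsub : ∀ j < 2 * t, C j ⊆ U (lv j) := by
    intro j hj
    simp only [hC, hlv]
    split_ifs with h1
    · exact (hXY j h1).1
    · exact (hXY _ (by omega)).2.1
  have hCcard : ∀ j < 2 * t, (C j).card = h := by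
    intro j hj
    simp only [hC]
    split_ifs with h1
    · exact (hXY j h1).2.2.2.1
    · exact (hXY _ (by omega)).2.2.2.2
  have hstar : ∀ a b : ℕ, a ≤ t → b ≤ t → (b = a + 1 ∨ a = b + 1) → Star R g (U a) (U b) := by
    intro a b ha hb hab
    rcases hab with h1 | h1
    · subst h1; exact hs a (by omega)
    · subst h1; exact (hs b (by omega)).symm
  have hCstar : ∀ i < 2 * t, ∀ j < 2 * t, (lv j = lv i + 1 ∨ lv i = lv j + 1) →
      Star R g (C i) (C j) := by
    intro i hi j hj hij
    exact (hstar _ _ (hlvt i hi) (hlvt j hj) hij).mono (hCsub i hi) (hCsub j hj)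
  have hCdis : ∀ i < 2 * t, ∀ j < 2 * t, i ≠ j → Disjoint (C i) (C j) := by
    intro i hi j hj hij
    by_cases h1 : lv i = lv j
    · simp only [hlv] at h1
      simp only [hC]
      split_ifs at h1 ⊢ with h2 h3 h3
      · exact absurd h1 hij
      · rw [h1]; exact (hXY _ (by omega)).2.2.1
      · rw [h1]; exact (hXY _ (by omega)).2.2.1.symm
      · omega
    · exact (hdis _ (hlvt i hi) _ (hlvt j hj) h1).mono (hCsub i hi) (hCsub j hj)
  refine link (r := t) ht hg hgh (fun i => C (2 * i)) (fun i => C (2 * i + 1))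
    (fun i hi => hCcard _ (by omega)) (fun i hi => hCcard _ (by omega))
    (fun i hi => hCdis _ (by omega) _ (by omega) (by omega)) ?_ ?_ ?_
  · intro i hi j hj hij
    rw [disjoint_union_left, disjoint_union_right, disjoint_union_right]
    exact ⟨⟨hCdis _ (by omega) _ (by omega) (by omega), hCdis _ (by omega) _ (by omega) (by omega)⟩,
      ⟨hCdis _ (by omega) _ (by omega) (by omega), hCdis _ (by omega) _ (by omega) (by omega)⟩⟩
  · intro i hi
    apply hCstar _ (by omega) _ (by omega)
    simp only [hlv]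
    split_ifs <;> omega
  · intro i hi
    have h1 : (i + 1) % t < t := Nat.mod_lt _ (by omega)
    apply hCstar _ (by omega) _ (by omega)
    rcases Nat.lt_or_ge (i + 1) t with h2 | h2
    · rw [Nat.mod_eq_of_lt h2]
      simp only [hlv]
      split_ifs <;> omega
    · have h3 : i + 1 = t := by omega
      rw [h3, Nat.mod_self]
      simp only [hlv]
      split_ifs <;> omega

end Pool.Agent.Hq78.LC
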