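import Pool.Agent.Hq78.LC.Host

set_option autoImplicit false
set_option linter.unusedSectionVars false

open Finset N943.NT SimpleGraph

namespace Pool.Agent.Hq78.LC

section mono
variable {α : Type*} [DecidableEq α]

theorem ex_mono_p {E : Finset α} {p₀ p : ℝ} (h0 : 0 ≤ p₀) (h1 : p₀ ≤ p) (h2 : p ≤ 1)
    {f : Finset α → ℝ} (hf : ∀ S T, S ⊆ T → f S ≤ f T) : Ex E p₀ f ≤ Ex E p f := by
  rcases h1.eq_or_lt with h3 | h3
  · rw [h3]
  have h4 : 0 < 1 - p₀ := by linarith
  set p₂ : ℝ := 1 - (1 - p) / (1 - p₀) with hp₂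
  have h5 : 1 - (1 - p₀) * (1 - p₂) = p := by
    rw [hp₂]; field_simp; ring
  have h6 : 0 ≤ p₂ := by
    rw [hp₂, sub_nonneg, div_le_one h4]; linarith
  have h7 : p₂ ≤ 1 := by
    rw [hp₂]
    have : 0 ≤ (1 - p) / (1 - p₀) := div_nonneg (by linarith) h4.le
    linarith
  rw [← h5, ← Ex_two]
  refine Ex_mono h0 (by linarith) fun S _ => ?_
  calc f S = Ex E p₂ (fun _ => f S) := (Ex_const E p₂ (f S)).symm
    _ ≤ _ := Ex_mono h6 h7 fun T _ => hf _ _ subset_union_left

theorem ex_mono_set {E E' : Finset α} (hE : E' ⊆ E) {p : ℝ} (h0 : 0 ≤ p) (h2 : p ≤ 1)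
    {f : Finset α → ℝ} (hf : ∀ S T, S ⊆ T → f S ≤ f T) : Ex E' p f ≤ Ex E p f := by
  rw [← Ex_inter hE]
  exact Ex_mono h0 h2 fun S _ => hf _ _ inter_subset_left

end mono

variable {V : Type} [Fintype V] [DecidableEq V]

theorem gp_count {E : Finset (Sym2 V)} {ρ : V → Option V} {L : ℕ} :
    E.card ≤ (bad E ρ L).card + (gp E (ext ρ) L).card := by
  classical
  have h1 : E ⊆ bad E ρ L ∪ (gp E (ext ρ) L).image (fun x => s(x.1, x.2)) := by
    intro e he
    rw [mem_union]
    by_cases h2 : ∃ x ∈ gp E (ext ρ) L, e = s(x.1, x.2)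
    · right
      obtain ⟨x, hx, rfl⟩ := h2
      exact mem_image_of_mem _ hx
    · left
      unfold bad
      rw [mem_filter]
      exact ⟨he, h2⟩
  exact (card_le_card h1).trans ((card_union_le _ _).trans
    (Nat.add_le_add_left card_image_le _))

theorem card_le_choose {E : Finset (Sym2 V)} (hE : ∀ e ∈ E, ¬ e.IsDiag) :
    2 * E.card ≤ Fintype.card V * Fintype.card V := by
  classical
  have h1 : E ⊆ (gr E).edgeFinset := by
    intro e he
    rw [SimpleGraph.mem_edgeFinset]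
    simp only [gr, SimpleGraph.edgeSet_fromEdgeSet]
    exact ⟨he, hE e he⟩
  have h2 := (card_le_card h1).trans (gr E).card_edgeFinset_le_card_choose_two
  have h3 : 2 * (Fintype.card V).choose 2 ≤ Fintype.card V * Fintype.card V := by
    rw [Nat.choose_two_right]
    have := Nat.mul_div_le (Fintype.card V * (Fintype.card V - 1)) 2
    exact this.trans (Nat.mul_le_mul_left _ (Nat.sub_le _ _))
  omega

theorem log_bound {η C : ℝ} (hη : 0 < η) (hC : 0 < C)
    (h : 2 / η * (η / 4 + Real.log (4 / η)) ≤ C) : Real.log (1 + 2 * C) + 1 ≤ η * C := by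
  have h1 : Real.log (1 + 2 * C) = Real.log ((1 + 2 * C) * (η / 4)) + Real.log (4 / η) := by
    rw [← Real.log_mul (by positivity) (by positivity)]
    congr 1; field_simp
  have h2 : Real.log ((1 + 2 * C) * (η / 4)) ≤ (1 + 2 * C) * (η / 4) - 1 :=
    Real.log_le_sub_one_of_pos (by positivity)
  have h3 : η / 4 + Real.log (4 / η) ≤ C * η / 2 := by
    have h4 := mul_le_mul_of_nonneg_right h (show 0 ≤ η / 2 by positivity)
    have h5 : 2 / η * (η / 4 + Real.log (4 / η)) * (η / 2) = η / 4 + Real.log (4 / η) := by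
      field_simp
    rw [h5] at h4
    linarith
  rw [h1]
  nlinarith

open Classical in
theorem core {δ : ℝ} (hδ0 : 0 < δ) (hδ1 : δ < 1) : ∃ C : ℝ, 0 < C ∧ ∃ k₀ : ℕ, ∀ k : ℕ, k₀ ≤ k →
    ∀ (V : Type) [Fintype V] [DecidableEq V] [Nonempty V] (E : Finset (Sym2 V)),
    (∀ e ∈ E, ¬ e.IsDiag) → k * Fintype.card V ≤ 2 * E.card →
    ∀ p : ℝ, 0 ≤ p → p ≤ 1 → C / k ≤ p →
    1 - 2 * Real.exp (-(k : ℝ)) ≤
      Ex E p (fun S => if HasCyc ⌈(1 - δ) * k⌉₊ (gr S) then (1 : ℝ) else 0) := by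
  set η : ℝ := δ / 32 with hη
  have hη0 : 0 < η := by positivity
  set C₁ : ℕ := ⌈8 / δ⌉₊ with hC₁
  have hC₁R : 8 / δ ≤ (C₁ : ℝ) := Nat.le_ceil _
  have h8δ : 8 ≤ 8 / δ := by rw [le_div_iff₀ hδ0]; linarith
  have hC₁8 : (8 : ℝ) ≤ C₁ := h8δ.trans hC₁R
  have hδC₁ : 8 ≤ δ * C₁ := by rw [div_le_iff₀ hδ0] at hC₁R; linarith
  set K : ℝ := max (2 * C₁ + 1) (C₁ / η) with hK
  have hK1 : 2 * (C₁ : ℝ) + 1 ≤ K := le_max_left _ _
  have hK2 : (C₁ : ℝ) / η ≤ K := le_max_right _ _
  have hK0 : 1 ≤ K := by linarith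
  set ε : ℝ := min (1 / 20) (δ / (8 * K)) with hε
  have hε0 : 0 < ε := by rw [hε]; positivity
  have hε1 : ε ≤ 1 / 20 := min_le_left _ _
  have hεK : ε * (8 * K) ≤ δ := by
    have h1 : ε ≤ δ / (8 * K) := min_le_right _ _
    rwa [le_div_iff₀ (by positivity)] at h1
  obtain ⟨c₀, hc₀, m₀, hspot⟩ := spot_cycle hε0 hε1
  set C : ℝ := max 1 (max (2 / η * (η / 4 + Real.log (4 / η))) (4 * (K * Real.log 4 + 1) / c₀))
    with hC
  have hC1 : 1 ≤ C := le_max_left _ _
  have hC2 : 2 / η * (η / 4 + Real.log (4 / η)) ≤ C := (le_max_left _ _).trans (le_max_right _ _)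
  have hC3 : 4 * (K * Real.log 4 + 1) / c₀ ≤ C := (le_max_right _ _).trans (le_max_right _ _)
  have hCη := log_bound hη0 (by linarith) hC2
  refine ⟨2 * C, by linarith, max ⌈C⌉₊ (max (2 * m₀) ⌈3 / (1 - δ)⌉₊), ?_⟩
  intro k hk V _ _ _ E hE hkE p hp0 hp1 hCp
  have hk1 : C ≤ k := by
    have h1 : ⌈C⌉₊ ≤ k := (le_max_left _ _).trans hk
    exact (Nat.le_ceil _).trans (by exact_mod_cast h1)
  have hk2 : 2 * (m₀ : ℝ) ≤ k := by
    have h1 : 2 * m₀ ≤ k := ((le_max_left _ _).trans (le_max_right _ _)).trans hk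
    exact_mod_cast h1
  have hk3 : 3 / (1 - δ) ≤ k := by
    have h1 : ⌈3 / (1 - δ)⌉₊ ≤ k := ((le_max_right _ _).trans (le_max_right _ _)).trans hk
    exact (Nat.le_ceil _).trans (by exact_mod_cast h1)
  have hkR : (1 : ℝ) ≤ k := hC1.trans hk1
  have hk0 : (0 : ℝ) < k := by linarith
  have hk3' : 3 ≤ (1 - δ) * k := by
    rw [div_le_iff₀ (by linarith)] at hk3; linarith
  set l : ℕ := ⌈(1 - δ) * k⌉₊ with hl
  have hl3 : 3 ≤ l := by
    have : (3 : ℝ) ≤ l := hk3'.trans (Nat.le_ceil _)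
    exact_mod_cast this
  have hlk : l ≤ k := by
    rw [hl, Nat.ceil_le]
    nlinarith
  set n : ℕ := Fintype.card V with hn
  have hn0 : 0 < n := Fintype.card_pos
  have hnR : (1 : ℝ) ≤ n := by exact_mod_cast hn0
  have hkn : k ≤ n := by
    have h1 := card_le_choose hE
    have h2 : k * n ≤ n * n := hkE.trans h1
    exact Nat.le_of_mul_le_mul_right h2 hn0
  have hknR : (k : ℝ) ≤ n := by exact_mod_cast hkn
  -- the indicator
  set f : Finset (Sym2 V) → ℝ := fun S => if HasCyc l (gr S) then (1 : ℝ) else 0 with hf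
  have hfmono : ∀ S T, S ⊆ T → f S ≤ f T := by
    intro S T hST
    simp only [hf]
    by_cases h1 : HasCyc l (gr S)
    · rw [if_pos h1, if_pos (hasCyc_mono hST h1)]
    · rw [if_neg h1]; split_ifs <;> norm_num
  have hf0 : ∀ S, 0 ≤ f S := fun S => by simp only [hf]; split_ifs <;> norm_num
  -- the subset
  obtain ⟨E', hE'E, hE'c⟩ := exists_subset_card_eq (s := E) (n := (k * n + 1) / 2) (by omega)
  have hE'1 : k * n ≤ 2 * E'.card := by omega
  have hE'2 : 2 * E'.card ≤ k * n + 1 := by omega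
  have hE' : ∀ e ∈ E', ¬ e.IsDiag := fun e he => hE e (hE'E he)
  have hE'1R : (k : ℝ) * n ≤ 2 * E'.card := by exact_mod_cast hE'1
  have hE'2R : 2 * (E'.card : ℝ) ≤ k * n + 1 := by exact_mod_cast hE'2
  -- the densities
  set p₁ : ℝ := C / k with hp₁
  have hp₁0 : 0 ≤ p₁ := by positivity
  have hp₁1 : p₁ ≤ 1 := by rw [hp₁, div_le_one hk0]; exact hk1
  have hp₁k : p₁ * k = C := by rw [hp₁]; field_simp
  have hpp : 1 - (1 - p₁) * (1 - p₁) ≤ p := by
    have h1 : 2 * C / k = 2 * p₁ := by rw [hp₁]; ring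
    rw [h1] at hCp
    nlinarith
  have hpp0 : 0 ≤ 1 - (1 - p₁) * (1 - p₁) := by nlinarith
  refine le_trans ?_ (ex_mono_p hpp0 hpp hp1 hfmono)
  refine le_trans ?_ (ex_mono_set hE'E hpp0 (hpp.trans hp1) hfmono)
  rw [← Ex_two]
  -- first round
  set M : ℕ := ⌈η * k * n⌉₊ with hM
  set B₁ : Finset (Sym2 V) → Prop := fun S => ∃ ρ : V → Option V, RT none (ext ρ) ∧
      (∀ v u, ρ v = some u → s(v, u) ∈ E') ∧ te ρ ⊆ S ∧ Disjoint S (bad E' ρ (l - 1)) ∧
      M ≤ (bad E' ρ (l - 1)).card with hB₁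
  have hfirst : Ex E' p₁ (fun S => if B₁ S then (1 : ℝ) else 0) ≤ Real.exp (-(k : ℝ)) := by
    refine (first_round E' hp₁0 hp₁1 (L := l - 1) (by omega) M (a := 2 * C) ?_ (by linarith)).trans ?_
    · calc 2 * p₁ * E'.card = p₁ * (2 * E'.card) := by ring
        _ ≤ p₁ * (k * n + 1) := mul_le_mul_of_nonneg_left hE'2R hp₁0
        _ ≤ p₁ * (2 * k * n) := mul_le_mul_of_nonneg_left (by nlinarith) hp₁0
        _ = 2 * C * n := by rw [← hp₁k]; ring
    · rw [Real.exp_le_exp]
      have h1 : η * k * n ≤ M := Nat.le_ceil _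
      have h2 : p₁ * (η * k * n) ≤ p₁ * M := mul_le_mul_of_nonneg_left h1 hp₁0
      have h3 : p₁ * (η * k * n) = η * C * n := by rw [← hp₁k]; ring
      have h4 : (n : ℝ) * (Real.log (1 + 2 * C) + 1) ≤ n * (η * C) :=
        mul_le_mul_of_nonneg_left hCη (by linarith)
      rw [← hn]
      nlinarith
  -- second round, for a fixed outcome of the first
  have hsecond : ∀ S ⊆ E', 1 - (if B₁ S then (1 : ℝ) else 0) - Real.exp (-(k : ℝ)) ≤
      Ex E' p₁ (fun T => f (S ∪ T)) := by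
    intro S hS
    have hexp : 0 < Real.exp (-(k : ℝ)) := Real.exp_pos _
    by_cases hcyc : HasCyc l (gr S)
    · have h1 : (1 : ℝ) ≤ Ex E' p₁ (fun T => f (S ∪ T)) := by
        calc (1 : ℝ) = Ex E' p₁ (fun _ => 1) := (Ex_const _ _ _).symm
          _ ≤ _ := Ex_mono hp₁0 hp₁1 fun T _ => by
            simp only [hf]
            rw [if_pos (hasCyc_mono subset_union_left hcyc)]
      split_ifs <;> linarith
    by_cases hB : B₁ S
    · rw [if_pos hB]
      have := Ex_nonneg (E := E') hp₁0 hp₁1 (f := fun T => f (S ∪ T)) (fun T _ => hf0 _)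
      linarith
    rw [if_neg hB, sub_zero]
    obtain ⟨ρ, hρ1, hρ2, hρ3, hρ4⟩ := exists_tree (H := gr S) hl3 hcyc S E' (fun u v => gr_adj) hS hE'
    have hbad : (bad E' ρ (l - 1)).card < M := by
      by_contra hcon
      push Not at hcon
      exact hB ⟨ρ, hρ1, fun v u h => hS (hρ2 v u h), hρ3, hρ4, hcon⟩
    have hbadR : ((bad E' ρ (l - 1)).card : ℝ) < η * k * n := Nat.lt_ceil.1 hbad
    have hgp : (E'.card : ℝ) ≤ (bad E' ρ (l - 1)).card + (gp E' (ext ρ) (l - 1)).card := by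
      exact_mod_cast gp_count
    have hgp2 : (k : ℝ) * n / 2 - η * k * n < (gp E' (ext ρ) (l - 1)).card := by linarith
    set D : ℝ := (1 - δ / 4) * k with hD
    have hDk : k / 2 ≤ D := by rw [hD]; nlinarith
    have hD0 : 0 ≤ D := by linarith
    -- the dense spot
    obtain ⟨X, hXne, hXK, hDX⟩ : ∃ X : Finset V, X.Nonempty ∧ (X.card : ℝ) ≤ K * k ∧
        D * X.card ≤ 2 * (inn E' X).card := by
      by_cases hcase : (C₁ : ℝ) * k < η * n
      · have h1 : ((1 / 2 - 2 * η) * k) * Fintype.card V + ((C₁ * k : ℕ) : ℝ) * ((l - 1 : ℕ) : ℝ) <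
            (gp E' (ext ρ) (l - 1)).card := by
          refine lt_of_le_of_lt ?_ hgp2
          rw [← hn]
          push_cast
          have h2 : ((l - 1 : ℕ) : ℝ) ≤ k := by
            have : l - 1 ≤ k := by omega
            exact_mod_cast this
          have h3 : (C₁ : ℝ) * k * ((l - 1 : ℕ) : ℝ) ≤ C₁ * k * k :=
            mul_le_mul_of_nonneg_left h2 (by positivity)
          have h4 : (C₁ : ℝ) * k * k ≤ η * n * k := mul_le_mul_of_nonneg_right hcase.le hk0.le
          nlinarith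
        have ha1 : 1 ≤ C₁ * k := by
          have : (1 : ℝ) ≤ C₁ * k := by nlinarith
          exact_mod_cast this
        obtain ⟨W, X, hWX, hW1, hW2, hX, hcW⟩ := dense_spot hρ1 E' (l - 1) ha1
          (c := (1 / 2 - 2 * η) * k) (by rw [hη]; nlinarith) h1
        have hW1R : (C₁ : ℝ) * k ≤ W.card := by exact_mod_cast hW1
        have hW2R : (W.card : ℝ) ≤ 2 * (C₁ * k) := by exact_mod_cast hW2.le
        have hXR : (X.card : ℝ) ≤ W.card + k := by
          have : X.card ≤ W.card + k := by omega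
          exact_mod_cast this
        have hWpos : 0 < W.card := by omega
        refine ⟨X, (card_pos.1 hWpos).mono hWX, ?_, ?_⟩
        · have : (2 * (C₁ : ℝ) + 1) * k ≤ K * k := mul_le_mul_of_nonneg_right hK1 hk0.le
          nlinarith
        · have h5 : (inn E' X).card = (E'.filter (fun e => ∀ x ∈ e, x ∈ X)).card := rfl
          rw [h5]
          have h6 : D * X.card ≤ D * (W.card + k) := mul_le_mul_of_nonneg_left hXR hD0
          -- `k ≤ (δ/8) |W|`
          have h7 : (k : ℝ) ≤ δ / 8 * W.card := by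
            have h8 : 8 * (k : ℝ) ≤ δ * C₁ * k := mul_le_mul_of_nonneg_right hδC₁ hk0.le
            have h9 : δ * (C₁ * k) ≤ δ * W.card := mul_le_mul_of_nonneg_left hW1R hδ0.le
            linarith
          have h8 : D * (W.card + k) ≤ D * ((1 + δ / 8) * W.card) :=
            mul_le_mul_of_nonneg_left (by linarith) hD0
          have h9 : D * ((1 + δ / 8) * W.card) ≤ 2 * ((1 / 2 - 2 * η) * k * W.card) := by
            have h10 : (1 - δ / 4) * (1 + δ / 8) ≤ 1 - δ / 8 := by nlinarith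
            have h11 : 0 ≤ (k : ℝ) * W.card := by positivity
            have h12 := mul_le_mul_of_nonneg_right h10 h11
            rw [hD, hη]
            nlinarith
          linarith
      · push Not at hcase
        refine ⟨univ, univ_nonempty, ?_, ?_⟩
        · rw [card_univ, ← hn]
          have h1 : (n : ℝ) ≤ C₁ / η * k := by
            rw [div_mul_eq_mul_div, le_div_iff₀ hη0]; linarith
          exact h1.trans (mul_le_mul_of_nonneg_right hK2 hk0.le)
        · have h1 : inn E' univ = E' := by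
            unfold inn
            rw [filter_eq_self]
            intro e _ x _
            exact mem_univ x
          rw [h1, card_univ, ← hn]
          have h2 : D * n ≤ k * n := mul_le_mul_of_nonneg_right (by rw [hD]; nlinarith) (by linarith)
          linarith
    -- the random set hits all dense pairs
    set M₂ : ℕ := ⌈c₀ * (k / 2) ^ 2⌉₊ with hM₂
    have hsr := second_round E' X hp₁0 hp₁1 M₂
    have hsr2 : Real.exp (X.card * Real.log 4 - p₁ * M₂) ≤ Real.exp (-(k : ℝ)) := by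
      rw [Real.exp_le_exp]
      have h1 : c₀ * ((k : ℝ) / 2) ^ 2 ≤ M₂ := Nat.le_ceil _
      have h2 : p₁ * (c₀ * ((k : ℝ) / 2) ^ 2) ≤ p₁ * M₂ := mul_le_mul_of_nonneg_left h1 hp₁0
      have h3 : p₁ * (c₀ * ((k : ℝ) / 2) ^ 2) = C * c₀ / 4 * k := by rw [← hp₁k]; ring
      have h4 : K * Real.log 4 + 1 ≤ C * c₀ / 4 := by
        rw [div_le_iff₀ hc₀] at hC3; linarith
      have h5 : (K * Real.log 4 + 1) * k ≤ C * c₀ / 4 * k := mul_le_mul_of_nonneg_right h4 hk0.le
      have h6 : 0 ≤ Real.log 4 := Real.log_nonneg (by norm_num)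
      have h7 : (X.card : ℝ) * Real.log 4 ≤ K * k * Real.log 4 := mul_le_mul_of_nonneg_right hXK h6
      nlinarith
    set B₂ : Finset (Sym2 V) → Prop := fun T => ∃ A ⊆ X, ∃ B ⊆ X, M₂ ≤ (eb E' A B).card ∧
      Disjoint T (eb E' A B) with hB₂
    have hkey : ∀ T ⊆ E', 1 - (if B₂ T then (1 : ℝ) else 0) ≤ f (S ∪ T) := by
      intro T hT
      by_cases hBT : B₂ T
      · rw [if_pos hBT]
        have := hf0 (S ∪ T)
        linarith
      · rw [if_neg hBT, sub_zero]
        have hXε : 2 * ε * X.card ≤ δ / 4 * k := by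
          have h1 : 2 * ε * X.card ≤ 2 * ε * (K * k) := mul_le_mul_of_nonneg_left hXK (by positivity)
          have h2 : ε * (8 * K) * k ≤ δ * k := mul_le_mul_of_nonneg_right hεK hk0.le
          nlinarith
        obtain ⟨v, c, hc, hlen⟩ := hspot V E' T X D hE' hXne (by linarith) hD0
          (by rw [hD]; nlinarith) hDX (by
            intro A hA B hB hAB hdis
            refine hBT ⟨A, hA, B, hB, ?_, hdis⟩
            rw [hM₂, Nat.ceil_le]
            refine le_trans ?_ hAB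
            exact mul_le_mul_of_nonneg_left (pow_le_pow_left₀ (by positivity) hDk 2) hc₀.le)
        have hlc : l ≤ c.length := by
          rw [hl, Nat.ceil_le]
          refine le_trans ?_ hlen
          have hε8 : 2 * ε ≤ δ / 4 := by nlinarith
          have h1 : (1 - δ / 2) * k ≤ D - 2 * ε * X.card := by rw [hD]; linarith
          have h2 : (1 - δ / 2) * k * (1 - δ / 4) ≤ (D - 2 * ε * X.card) * (1 - 2 * ε) := by
            have h3 : 0 ≤ (1 - δ / 2) * k := by
              have : 0 ≤ 1 - δ / 2 := by linarith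
              positivity
            exact mul_le_mul h1 (by linarith) (by linarith) (h3.trans h1)
          refine le_trans ?_ h2
          have h3 : 1 - δ ≤ (1 - δ / 2) * (1 - δ / 4) := by nlinarith
          have h4 := mul_le_mul_of_nonneg_right h3 hk0.le
          linarith
        have h1 : HasCyc l (gr T) := ⟨v, c, hc, hlc⟩
        simp only [hf]
        rw [if_pos (hasCyc_mono subset_union_right h1)]
    have h1 : Ex E' p₁ (fun T => 1 - (if B₂ T then (1 : ℝ) else 0)) ≤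
        Ex E' p₁ (fun T => f (S ∪ T)) := Ex_mono hp₁0 hp₁1 hkey
    have h2 : Ex E' p₁ (fun T => 1 - (if B₂ T then (1 : ℝ) else 0)) =
        1 - Ex E' p₁ (fun T => if B₂ T then (1 : ℝ) else 0) := by
      have h3 := Ex_add E' p₁ (fun T => 1 - (if B₂ T then (1 : ℝ) else 0))
        (fun T => if B₂ T then (1 : ℝ) else 0)
      simp only [sub_add_cancel] at h3
      rw [Ex_const] at h3
      linarith
    have h3 : Ex E' p₁ (fun T => if B₂ T then (1 : ℝ) else 0) ≤ Real.exp (-(k : ℝ)) :=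
      hsr.trans hsr2
    linarith
  have h1 : Ex E' p₁ (fun S => 1 - (if B₁ S then (1 : ℝ) else 0) - Real.exp (-(k : ℝ))) ≤
      Ex E' p₁ (fun S => Ex E' p₁ (fun T => f (S ∪ T))) := Ex_mono hp₁0 hp₁1 hsecond
  have h2 : Ex E' p₁ (fun S => 1 - (if B₁ S then (1 : ℝ) else 0) - Real.exp (-(k : ℝ))) =
      1 - Real.exp (-(k : ℝ)) - Ex E' p₁ (fun S => if B₁ S then (1 : ℝ) else 0) := by
    have h3 := Ex_add E' p₁ (fun S => 1 - (if B₁ S then (1 : ℝ) else 0) - Real.exp (-(k : ℝ)))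
      (fun S => if B₁ S then (1 : ℝ) else 0)
    have h4 : (fun S : Finset (Sym2 V) => 1 - (if B₁ S then (1 : ℝ) else 0) -
        Real.exp (-(k : ℝ)) + (if B₁ S then (1 : ℝ) else 0)) =
        fun _ => 1 - Real.exp (-(k : ℝ)) := by
      funext S; ring
    rw [h4, Ex_const] at h3
    linarith
  linarith

end Pool.Agent.Hq78.LC
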