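import Mathlib

set_option autoImplicit false
set_option linter.unusedSectionVars false

open Finset

namespace Pool.Agent.Hq78.LC

variable {V : Type} [DecidableEq V]

/-- Large subsets of `A` and `B` are joined by an edge. -/
def Star (R : SimpleGraph V) (g : ℕ) (A B : Finset V) : Prop :=
  ∀ A' ⊆ A, ∀ B' ⊆ B, g ≤ A'.card → g ≤ B'.card → ∃ a ∈ A', ∃ b ∈ B', R.Adj a b

/-- A state of the search. -/
structure St (r : V → V → Prop) (C S T : Finset V) (U : List V) : Prop where
  nd : U.Nodup
  ch : U.IsChain r
  mem : ∀ x, x ∈ C ↔ x ∈ S ∨ x ∈ T ∨ x ∈ U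
  dST : Disjoint S T
  dU : ∀ x ∈ U, x ∉ S ∧ x ∉ T
  no : ∀ x ∈ S, ∀ y ∈ T, ¬ r x y

theorem exists_state (r : V → V → Prop) (hr : ∀ x y, r x y → r y x) (C : Finset V) :
    ∀ j ≤ C.card, ∃ S T U, St r C S T U ∧ S.card + C.card = T.card + j := by
  intro j
  induction j with
  | zero =>
    intro _
    refine ⟨∅, C, [], ⟨List.nodup_nil, List.IsChain.nil, fun x => by simp, disjoint_empty_left _,
      fun x hx => by simp at hx, fun x hx => by simp at hx⟩, by simp⟩
  | succ j ih =>
    intro hj
    obtain ⟨S, T, U, h, hcard⟩ := ih (by omega)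
    have hT : 0 < T.card := by omega
    cases U with
    | nil =>
      obtain ⟨t, ht⟩ := card_pos.1 hT
      refine ⟨S, T.erase t, [t], ⟨List.nodup_singleton _, List.IsChain.singleton _, fun x => ?_,
        h.dST.mono_right (erase_subset _ _), fun x hx => ?_, fun x hx y hy =>
        h.no x hx y (mem_of_mem_erase hy)⟩, ?_⟩
      · rw [h.mem, mem_erase, List.mem_singleton]
        constructor
        · rintro (h1 | h1 | h1)
          · exact Or.inl h1
          · by_cases h2 : x = t
            · exact Or.inr (Or.inr h2)
            · exact Or.inr (Or.inl ⟨h2, h1⟩)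
          · simp at h1
        · rintro (h1 | h1 | h1)
          · exact Or.inl h1
          · exact Or.inr (Or.inl h1.2)
          · exact Or.inr (Or.inl (h1 ▸ ht))
      · rw [List.mem_singleton] at hx
        subst hx
        exact ⟨disjoint_right.1 h.dST ht, by simp⟩
      · rw [card_erase_of_mem ht]; omega
    | cons u U' =>
      by_cases hex : ∃ t ∈ T, r u t
      · obtain ⟨t, ht, hut⟩ := hex
        have htU : t ∉ u :: U' := fun h1 => (h.dU t h1).2 ht
        refine ⟨S, T.erase t, t :: u :: U', ⟨List.nodup_cons.2 ⟨htU, h.nd⟩,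
          List.isChain_cons_cons.2 ⟨hr _ _ hut, h.ch⟩, fun x => ?_,
          h.dST.mono_right (erase_subset _ _), fun x hx => ?_, fun x hx y hy =>
          h.no x hx y (mem_of_mem_erase hy)⟩, ?_⟩
        · rw [h.mem, mem_erase, List.mem_cons (a := x) (b := t)]
          constructor
          · rintro (h1 | h1 | h1)
            · exact Or.inl h1
            · by_cases h2 : x = t
              · exact Or.inr (Or.inr (Or.inl h2))
              · exact Or.inr (Or.inl ⟨h2, h1⟩)
            · exact Or.inr (Or.inr (Or.inr h1))
          · rintro (h1 | h1 | h1 | h1)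
            · exact Or.inl h1
            · exact Or.inr (Or.inl h1.2)
            · exact Or.inr (Or.inl (h1 ▸ ht))
            · exact Or.inr (Or.inr h1)
        · rcases List.mem_cons.1 hx with h1 | h1
          · subst h1
            exact ⟨disjoint_right.1 h.dST ht, by simp⟩
          · have h2 := h.dU x h1
            exact ⟨h2.1, fun h3 => h2.2 (mem_of_mem_erase h3)⟩
        · rw [card_erase_of_mem ht]; omega
      · push Not at hex
        have hu := h.dU u (List.mem_cons_self)
        refine ⟨insert u S, T, U', ⟨(List.nodup_cons.1 h.nd).2, h.ch.tail, fun x => ?_, ?_,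
          fun x hx => ?_, fun x hx y hy => ?_⟩, ?_⟩
        · rw [h.mem, mem_insert, List.mem_cons]
          tauto
        · rw [disjoint_insert_left]
          exact ⟨hu.2, h.dST⟩
        · have h2 := h.dU x (List.mem_cons_of_mem _ hx)
          refine ⟨?_, h2.2⟩
          rw [mem_insert]
          rintro (h3 | h3)
          · exact (List.nodup_cons.1 h.nd).1 (h3 ▸ hx)
          · exact h2.1 h3
        · rcases mem_insert.1 hx with h3 | h3
          · rw [h3]; exact hex y hy
          · exact h.no x h3 y hy
        · rw [card_insert_of_notMem hu.1]; omega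

/-- The alternating relation. -/
def ab (R : SimpleGraph V) (A B : Finset V) (x y : V) : Prop :=
  R.Adj x y ∧ ((x ∈ A ∧ y ∈ B) ∨ (x ∈ B ∧ y ∈ A))

theorem ab_symm {R : SimpleGraph V} {A B : Finset V} (x y : V) (h : ab R A B x y) :
    ab R A B y x := ⟨h.1.symm, by have := h.2; tauto⟩

/-- number of elements of the list in `A` -/
def cn (A : Finset V) (U : List V) : ℕ := (U.filter (fun x => decide (x ∈ A))).length

theorem cn_cons_mem {A : Finset V} {x : V} {U : List V} (h : x ∈ A) :
    cn A (x :: U) = cn A U + 1 := by
  simp [cn, h]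

theorem cn_cons_notMem {A : Finset V} {x : V} {U : List V} (h : x ∉ A) :
    cn A (x :: U) = cn A U := by
  simp [cn, h]

theorem alt_count {R : SimpleGraph V} {A B : Finset V} (hAB : Disjoint A B) :
    ∀ (U : List V) (x : V), (x :: U).IsChain (ab R A B) →
      (x ∈ A → cn A (x :: U) = cn B (x :: U) ∨ cn A (x :: U) = cn B (x :: U) + 1) ∧
      (x ∈ B → cn A (x :: U) = cn B (x :: U) ∨ cn B (x :: U) = cn A (x :: U) + 1) := by
  intro U
  induction U with
  | nil =>
    intro x _
    constructor
    · intro h
      rw [cn_cons_mem h, cn_cons_notMem (disjoint_left.1 hAB h)]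
      right; simp [cn]
    · intro h
      rw [cn_cons_mem h, cn_cons_notMem (disjoint_right.1 hAB h)]
      right; simp [cn]
  | cons y U ih =>
    intro x hx
    rw [List.isChain_cons_cons] at hx
    have h1 := ih y hx.2
    constructor
    · intro h
      have hxB := disjoint_left.1 hAB h
      have hy : y ∈ B := by
        rcases hx.1.2 with h2 | h2
        · exact h2.2
        · exact absurd h2.1 hxB
      rw [cn_cons_mem h, cn_cons_notMem hxB]
      rcases h1.2 hy with h2 | h2 <;> omega
    · intro h
      have hxA := disjoint_right.1 hAB h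
      have hy : y ∈ A := by
        rcases hx.1.2 with h2 | h2
        · exact absurd h2.1 hxA
        · exact h2.2
      rw [cn_cons_mem h, cn_cons_notMem hxA]
      rcases h1.1 hy with h2 | h2 <;> omega

theorem card_split {C A S T : Finset V} {U : List V} {r : V → V → Prop} (h : St r C S T U)
    (hA : A ⊆ C) : A.card = (S ∩ A).card + (T ∩ A).card + cn A U := by
  have h1 : cn A U = (U.toFinset ∩ A).card := by
    unfold cn
    rw [← List.toFinset_card_of_nodup (h.nd.filter _)]
    congr 1
    ext x
    simp
  have h2 : A = (S ∩ A) ∪ (T ∩ A) ∪ (U.toFinset ∩ A) := by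
    ext x
    simp only [mem_union, mem_inter, List.mem_toFinset]
    constructor
    · intro hx
      rcases (h.mem x).1 (hA hx) with h3 | h3 | h3 <;> tauto
    · tauto
  rw [h1]
  conv_lhs => rw [h2]
  rw [card_union_of_disjoint, card_union_of_disjoint]
  · exact h.dST.mono inter_subset_left inter_subset_left
  · rw [disjoint_left]
    intro x hx hx'
    rw [mem_inter, List.mem_toFinset] at hx'
    have h3 := h.dU x hx'.1
    rw [mem_union, mem_inter, mem_inter] at hx
    tauto

/-- A long path in a pair. -/
theorem pair_path {R : SimpleGraph V} {A B : Finset V} (hAB : Disjoint A B) {h g : ℕ}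
    (hA : A.card = h) (hB : B.card = h) (hs : Star R g A B) (hg : 1 ≤ g) :
    ∃ P : List V, P.Nodup ∧ P.IsChain (ab R A B) ∧ (∀ x ∈ P, x ∈ A ∪ B) ∧
      (∀ x ∈ P.head?, x ∈ A) ∧ 2 * h < P.length + 4 * g := by
  have hC : (A ∪ B).card = 2 * h := by
    rw [card_union_of_disjoint hAB, hA, hB]; ring
  obtain ⟨S, T, U, hst, hcard⟩ := exists_state (ab R A B) ab_symm (A ∪ B) (A ∪ B).card le_rfl
  have hST : S.card = T.card := by omega
  have hSsub : S ⊆ A ∪ B := fun x hx => (hst.mem x).2 (Or.inl hx)
  have hTsub : T ⊆ A ∪ B := fun x hx => (hst.mem x).2 (Or.inr (Or.inl hx))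
  have hUsub : ∀ x ∈ U, x ∈ A ∪ B := fun x hx => (hst.mem x).2 (Or.inr (Or.inr hx))
  have cA := card_split hst (A := A) subset_union_left
  have cB := card_split hst (A := B) subset_union_right
  have key : ∀ S : Finset V, S ⊆ A ∪ B → S.card = (S ∩ A).card + (S ∩ B).card := by
    intro S hS
    rw [← card_union_of_disjoint, ← inter_union_distrib_left, inter_eq_left.2 hS]
    exact hAB.mono inter_subset_right inter_subset_right
  have cS := key S hSsub
  have cT := key T hTsub
  have n1 : (S ∩ A).card < g ∨ (T ∩ B).card < g := by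
    by_contra hcon
    push Not at hcon
    obtain ⟨a, ha, b, hb, hab⟩ := hs (S ∩ A) inter_subset_right (T ∩ B) inter_subset_right
      hcon.1 hcon.2
    rw [mem_inter] at ha hb
    exact hst.no a ha.1 b hb.1 ⟨hab, Or.inl ⟨ha.2, hb.2⟩⟩
  have n2 : (T ∩ A).card < g ∨ (S ∩ B).card < g := by
    by_contra hcon
    push Not at hcon
    obtain ⟨a, ha, b, hb, hab⟩ := hs (T ∩ A) inter_subset_right (S ∩ B) inter_subset_right
      hcon.1 hcon.2
    rw [mem_inter] at ha hb
    exact hst.no b hb.1 a ha.1 ⟨hab.symm, Or.inr ⟨hb.2, ha.2⟩⟩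
  have hlen : U.length = cn A U + cn B U := by
    have h1 : (∀ x ∈ U, x ∈ A ∪ B) := hUsub
    clear cA cB
    induction U with
    | nil => simp [cn]
    | cons x U ih =>
      have h2 : ∀ V' : List V, (∀ x ∈ V', x ∈ A ∪ B) → V'.length = cn A V' + cn B V' := by
        intro V'
        induction V' with
        | nil => intro _; simp [cn]
        | cons y V' ih' =>
          intro hy
          have h3 := ih' fun z hz => hy z (List.mem_cons_of_mem _ hz)
          rcases mem_union.1 (hy y List.mem_cons_self) with h4 | h4
          · rw [cn_cons_mem h4, cn_cons_notMem (disjoint_left.1 hAB h4), List.length_cons, h3]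
            ring
          · rw [cn_cons_mem h4, cn_cons_notMem (disjoint_right.1 hAB h4), List.length_cons, h3]
            ring
      exact h2 _ h1
  have halt : cn A U ≤ cn B U + 1 ∧ cn B U ≤ cn A U + 1 := by
    cases U with
    | nil => simp [cn]
    | cons x U' =>
      have h1 := alt_count hAB U' x hst.ch
      rcases mem_union.1 (hUsub x List.mem_cons_self) with h2 | h2
      · rcases h1.1 h2 with h3 | h3 <;> omega
      · rcases h1.2 h2 with h3 | h3 <;> omega
  have hUlen : 2 * h < U.length + 4 * g - 1 := by omega
  cases U with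
  | nil => exact ⟨[], List.nodup_nil, List.IsChain.nil, by simp, by simp, by simp at hUlen ⊢; omega⟩
  | cons x U' =>
    rcases mem_union.1 (hUsub x List.mem_cons_self) with h2 | h2
    · refine ⟨x :: U', hst.nd, hst.ch, hUsub, by simpa using h2, by omega⟩
    · refine ⟨U', (List.nodup_cons.1 hst.nd).2, hst.ch.tail, fun y hy =>
        hUsub y (List.mem_cons_of_mem _ hy), fun y hy => ?_, ?_⟩
      · cases U' with
        | nil => simp at hy
        | cons z U'' =>
          have h3 : z = y := by simpa using hy
          have h4 := (List.isChain_cons_cons.1 hst.ch).1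
          rcases h4.2 with h5 | h5
          · exact absurd h5.1 (disjoint_right.1 hAB h2)
          · rw [← h3]; exact h5.2
      · rw [List.length_cons] at hUlen
        omega

end Pool.Agent.Hq78.LC
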