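import Mathlib

set_option autoImplicit false
set_option linter.unusedSectionVars false

open Finset

namespace Pool.Agent.Hq78.LC

variable {α : Type*} [DecidableEq α]

/-- Expectation of `f` at the random subset of `E` in which each element is kept with
probability `p`. -/
noncomputable def Ex (E : Finset α) (p : ℝ) (f : Finset α → ℝ) : ℝ :=
  ∑ S ∈ E.powerset, p ^ S.card * (1 - p) ^ (E.card - S.card) * f S

theorem Ex_empty (p : ℝ) (f : Finset α → ℝ) : Ex ∅ p f = f ∅ := by
  simp [Ex]

theorem Ex_insert {E : Finset α} {e : α} (he : e ∉ E) (p : ℝ) (f : Finset α → ℝ) :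
    Ex (insert e E) p f = p * Ex E p (fun S => f (insert e S)) + (1 - p) * Ex E p f := by
  unfold Ex
  rw [sum_powerset_insert he, add_comm, mul_sum, mul_sum]
  congr 1
  · refine sum_congr rfl fun S hS => ?_
    rw [mem_powerset] at hS
    have h1 : e ∉ S := fun h => he (hS h)
    rw [card_insert_of_notMem h1, card_insert_of_notMem he, Nat.add_sub_add_right, pow_succ]
    ring
  · refine sum_congr rfl fun S hS => ?_
    rw [mem_powerset] at hS
    have h1 : S.card ≤ E.card := card_le_card hS
    rw [card_insert_of_notMem he, Nat.sub_add_comm h1, pow_succ]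
    ring

theorem Ex_mono {E : Finset α} {p : ℝ} (h0 : 0 ≤ p) (h1 : p ≤ 1) {f g : Finset α → ℝ}
    (h : ∀ S ⊆ E, f S ≤ g S) : Ex E p f ≤ Ex E p g := by
  refine sum_le_sum fun S hS => ?_
  rw [mem_powerset] at hS
  have h2 : 0 ≤ 1 - p := by linarith
  exact mul_le_mul_of_nonneg_left (h S hS) (by positivity)

theorem Ex_congr {E : Finset α} {p : ℝ} {f g : Finset α → ℝ}
    (h : ∀ S ⊆ E, f S = g S) : Ex E p f = Ex E p g := by
  refine sum_congr rfl fun S hS => ?_
  rw [h S (mem_powerset.1 hS)]

theorem Ex_const (E : Finset α) (p c : ℝ) : Ex E p (fun _ => c) = c := by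
  induction E using Finset.induction_on with
  | empty => rw [Ex_empty]
  | insert e E he ih => rw [Ex_insert he, ih]; ring

theorem Ex_add (E : Finset α) (p : ℝ) (f g : Finset α → ℝ) :
    Ex E p (fun S => f S + g S) = Ex E p f + Ex E p g := by
  unfold Ex
  rw [← sum_add_distrib]
  exact sum_congr rfl fun S _ => by ring

theorem Ex_sum {ι : Type*} (I : Finset ι) (E : Finset α) (p : ℝ) (f : ι → Finset α → ℝ) :
    Ex E p (fun S => ∑ i ∈ I, f i S) = ∑ i ∈ I, Ex E p (f i) := by
  unfold Ex
  rw [sum_comm]
  exact sum_congr rfl fun S _ => by rw [mul_sum]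

theorem Ex_mul (E : Finset α) (p c : ℝ) (f : Finset α → ℝ) :
    Ex E p (fun S => c * f S) = c * Ex E p f := by
  unfold Ex
  rw [mul_sum]
  exact sum_congr rfl fun S _ => by ring

theorem Ex_nonneg {E : Finset α} {p : ℝ} (h0 : 0 ≤ p) (h1 : p ≤ 1) {f : Finset α → ℝ}
    (h : ∀ S ⊆ E, 0 ≤ f S) : 0 ≤ Ex E p f := by
  have := Ex_mono h0 h1 h
  rwa [Ex_const] at this

/-- Two rounds of exposure. -/
theorem Ex_two (E : Finset α) (p₁ p₂ : ℝ) (f : Finset α → ℝ) :
    Ex E p₁ (fun S => Ex E p₂ (fun T => f (S ∪ T))) = Ex E (1 - (1 - p₁) * (1 - p₂)) f := by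
  induction E using Finset.induction_on generalizing f with
  | empty => simp [Ex_empty]
  | insert e E he ih =>
    rw [Ex_insert he, Ex_insert he]
    have h1 : ∀ S : Finset α, Ex (insert e E) p₂ (fun T => f (insert e S ∪ T)) =
        Ex E p₂ (fun T => f (insert e (S ∪ T))) := by
      intro S
      rw [Ex_insert he]
      have a1 : ∀ T : Finset α, insert e S ∪ insert e T = insert e (S ∪ T) := fun T => by
        ext x; simp only [mem_union, mem_insert]; tauto
      have a2 : ∀ T : Finset α, insert e S ∪ T = insert e (S ∪ T) := fun T => by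
        rw [insert_union]
      simp_rw [a1, a2]
      ring
    have h2 : ∀ S : Finset α, Ex (insert e E) p₂ (fun T => f (S ∪ T)) =
        p₂ * Ex E p₂ (fun T => f (insert e (S ∪ T))) + (1 - p₂) * Ex E p₂ (fun T => f (S ∪ T)) := by
      intro S
      rw [Ex_insert he]
      have a1 : ∀ T : Finset α, S ∪ insert e T = insert e (S ∪ T) := fun T => by
        rw [union_insert]
      simp_rw [a1]
    simp_rw [h1, h2]
    rw [Ex_add, Ex_mul, Ex_mul, ih (fun S => f (insert e S)), ih f]
    ring

/-- Restricting to a smaller ground set. -/
theorem Ex_inter {E E' : Finset α} (h : E' ⊆ E) (p : ℝ) (f : Finset α → ℝ) :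
    Ex E p (fun S => f (S ∩ E')) = Ex E' p f := by
  have key : ∀ D : Finset α, Disjoint E' D → Ex (E' ∪ D) p (fun S => f (S ∩ E')) = Ex E' p f := by
    intro D
    induction D using Finset.induction_on with
    | empty =>
      intro _
      rw [union_empty]
      exact Ex_congr fun S hS => by rw [inter_eq_left.2 hS]
    | insert d D hd ih =>
      intro hdis
      rw [disjoint_insert_right] at hdis
      have h1 : d ∉ E' ∪ D := by
        rw [mem_union]; rintro (h2 | h2)
        · exact hdis.1 h2
        · exact hd h2
      rw [union_insert, Ex_insert h1]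
      have h2 : ∀ S : Finset α, insert d S ∩ E' = S ∩ E' := fun S => by
        rw [insert_inter_of_notMem hdis.1]
      simp_rw [h2]
      rw [ih hdis.2]
      ring
  have h1 := key (E \ E') disjoint_sdiff
  rwa [union_sdiff_of_subset h] at h1

open Classical in
/-- Probability that the random set contains `A` and misses `B`. -/
theorem Ex_event {E A B : Finset α} (hA : A ⊆ E) (hB : B ⊆ E) (hAB : Disjoint A B) (p : ℝ) :
    Ex E p (fun S => if A ⊆ S ∧ Disjoint S B then 1 else 0) =
      p ^ A.card * (1 - p) ^ B.card := by
  induction E using Finset.induction_on generalizing A B with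
  | empty =>
    have h1 : A = ∅ := subset_empty.1 hA
    have h2 : B = ∅ := subset_empty.1 hB
    subst h1 h2
    simp [Ex_empty]
  | insert e E he ih =>
    rw [Ex_insert he]
    by_cases h1 : e ∈ A
    · have h2 : e ∉ B := disjoint_left.1 hAB h1
      have h3 : Ex E p (fun S => if A ⊆ S ∧ Disjoint S B then (1 : ℝ) else 0) = 0 := by
        refine (Ex_congr fun S hS => ?_).trans (Ex_const E p 0)
        rw [if_neg]
        rintro ⟨h4, _⟩
        exact he (hS (h4 h1))
      have h4 : Ex E p (fun S => if A ⊆ insert e S ∧ Disjoint (insert e S) B then (1 : ℝ) else 0) =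
          Ex E p (fun S => if A.erase e ⊆ S ∧ Disjoint S B then (1 : ℝ) else 0) := by
        refine Ex_congr fun S hS => ?_
        congr 1
        rw [subset_insert_iff, disjoint_insert_left]
        simp [h2]
      rw [h3, h4, ih (A := A.erase e) (B := B)]
      · rw [← card_erase_add_one h1, pow_succ]; ring
      · intro x hx
        rw [mem_erase] at hx
        exact (mem_insert.1 (hA hx.2)).resolve_left hx.1
      · intro x hx
        rcases mem_insert.1 (hB hx) with h5 | h5
        · exact absurd (h5 ▸ hx) h2
        · exact h5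
      · exact hAB.mono_left (erase_subset _ _)
    · by_cases h2 : e ∈ B
      · have h3 : Ex E p (fun S => if A ⊆ insert e S ∧ Disjoint (insert e S) B then (1 : ℝ) else 0) =
            0 := by
          refine (Ex_congr fun S hS => ?_).trans (Ex_const E p 0)
          rw [if_neg]
          rintro ⟨_, h4⟩
          exact disjoint_left.1 h4 (mem_insert_self e S) h2
        have h4 : Ex E p (fun S => if A ⊆ S ∧ Disjoint S B then (1 : ℝ) else 0) =
            Ex E p (fun S => if A ⊆ S ∧ Disjoint S (B.erase e) then (1 : ℝ) else 0) := by
          refine Ex_congr fun S hS => ?_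
          have h5 : Disjoint S B ↔ Disjoint S (B.erase e) := by
            constructor
            · exact fun h => h.mono_right (erase_subset _ _)
            · intro h
              rw [disjoint_left] at h ⊢
              intro x hx hxB
              by_cases hxe : x = e
              · exact he (hS (hxe ▸ hx))
              · exact h hx (mem_erase.2 ⟨hxe, hxB⟩)
          simp only [h5]
        rw [h3, h4, ih (A := A) (B := B.erase e)]
        · rw [← card_erase_add_one h2, pow_succ]; ring
        · intro x hx
          rcases mem_insert.1 (hA hx) with h5 | h5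
          · exact absurd (h5 ▸ hx) h1
          · exact h5
        · intro x hx
          rw [mem_erase] at hx
          exact (mem_insert.1 (hB hx.2)).resolve_left hx.1
        · exact hAB.mono_right (erase_subset _ _)
      · have hA' : A ⊆ E := by
          intro x hx
          rcases mem_insert.1 (hA hx) with h5 | h5
          · exact absurd (h5 ▸ hx) h1
          · exact h5
        have hB' : B ⊆ E := by
          intro x hx
          rcases mem_insert.1 (hB hx) with h5 | h5
          · exact absurd (h5 ▸ hx) h2
          · exact h5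
        have h4 : Ex E p (fun S => if A ⊆ insert e S ∧ Disjoint (insert e S) B then (1 : ℝ) else 0) =
            Ex E p (fun S => if A ⊆ S ∧ Disjoint S B then (1 : ℝ) else 0) := by
          refine Ex_congr fun S hS => ?_
          congr 1
          rw [subset_insert_iff_of_notMem h1, disjoint_insert_left]
          simp [h2]
        rw [h4, ih hA' hB' hAB]
        ring

end Pool.Agent.Hq78.LC
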