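import Pool.Agent.Hq78.LC.Clus
import Pool.Agent.R84.EG
import Pool.Agent.Helper231.LC.ListCyc

set_option autoImplicit false
set_option linter.unusedSectionVars false

open Finset SimpleGraph

namespace Pool.Agent.Hq78.LC

open Pool.Agent.R84

/-- A path with many edges in a graph with many edges. -/
theorem long_path {W : Type} [DecidableEq W] (Γ : SimpleGraph W) [DecidableRel Γ.Adj]
    (S : Finset W) {κ : ℕ} (hκ : 1 ≤ κ) (h : (κ - 1) * S.card < EG.E Γ S) :
    ∃ (S' : Finset W) (m : ℕ) (f : ℕ → W), EG.PathIn Γ S' m f ∧ κ ≤ m := by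
  by_contra hcon
  push Not at hcon
  have h1 := EG.E_le Γ κ (κ - 1) hκ (fun d hd => by omega) (fun S' m f hf => hcon S' m f hf)
    (fun C hC => by
      unfold EG.E
      calc ∑ v ∈ C, (EG.nb Γ C v).card ≤ ∑ _v ∈ C, (κ - 1) := by
            refine sum_le_sum fun v hv => ?_
            have h2 : EG.nb Γ C v ⊆ C.erase v := by
              intro y hy
              unfold EG.nb at hy
              rw [mem_filter] at hy
              exact mem_erase.2 ⟨fun h3 => Γ.loopless.irrefl v (h3 ▸ hy.2), hy.1⟩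
            have h3 := card_le_card h2
            rw [card_erase_of_mem hv] at h3
            omega
        _ = (κ - 1) * C.card := by rw [sum_const, smul_eq_mul, mul_comm]) S
  omega

variable {α : Type} [Fintype α] [DecidableEq α]

/-- the reduced graph -/
def Gam (H : SimpleGraph α) [DecidableRel H.Adj] (P : Finpartition (univ : Finset α)) (ε : ℝ) :
    SimpleGraph (Finset α) where
  Adj U W := (U ∈ P.parts ∧ W ∈ P.parts) ∧ U ≠ W ∧ H.IsUniform (ε / 8) U W ∧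
    ε / 4 ≤ (H.edgeDensity U W : ℝ)
  symm := ⟨fun U W ⟨h1, h2, h3, h4⟩ => ⟨h1.symm, h2.symm, h3.symm, by rwa [edgeDensity_comm]⟩⟩
  loopless := ⟨fun _ h => h.2.1 rfl⟩

open Classical in
theorem edges_reduced (H : SimpleGraph α) [DecidableRel H.Adj]
    (P : Finpartition (univ : Finset α)) (ε : ℝ) (s : ℕ) (hs : ∀ U ∈ P.parts, U.card ≤ s) :
    2 * (H.regularityReduced P (ε / 8) (ε / 4)).edgeFinset.card ≤
      EG.E (Gam H P ε) P.parts * s ^ 2 := by
  rw [two_mul_card_edgeFinset]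
  have h1 : (univ.filter fun x : α × α => (H.regularityReduced P (ε / 8) (ε / 4)).Adj x.1 x.2) ⊆
      ((P.parts ×ˢ P.parts).filter (fun x => (Gam H P ε).Adj x.1 x.2)).biUnion
        (fun x => x.1 ×ˢ x.2) := by
    intro x hx
    rw [mem_filter, regularityReduced_adj] at hx
    obtain ⟨_, hadj, U, hU, W, hW, h1, h2, h3, h4, h5⟩ := hx
    rw [mem_biUnion]
    refine ⟨(U, W), ?_, ?_⟩
    · rw [mem_filter, mem_product]
      exact ⟨⟨hU, hW⟩, ⟨hU, hW⟩, h3, h4, h5⟩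
    · rw [mem_product]; exact ⟨h1, h2⟩
  have h2 : ((P.parts ×ˢ P.parts).filter (fun x => (Gam H P ε).Adj x.1 x.2)).card =
      EG.E (Gam H P ε) P.parts := by
    unfold EG.E EG.nb
    simp_rw [card_filter]
    rw [sum_product]
  calc _ ≤ _ := card_le_card h1
    _ ≤ ∑ x ∈ (P.parts ×ˢ P.parts).filter (fun x => (Gam H P ε).Adj x.1 x.2),
        (x.1 ×ˢ x.2).card := card_biUnion_le
    _ ≤ ∑ _x ∈ (P.parts ×ˢ P.parts).filter (fun x => (Gam H P ε).Adj x.1 x.2), s ^ 2 := by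
        refine sum_le_sum fun x hx => ?_
        rw [mem_filter, mem_product] at hx
        rw [card_product, sq]
        exact Nat.mul_le_mul (hs _ hx.1.1) (hs _ hx.1.2)
    _ = _ := by rw [sum_const, smul_eq_mul, h2]

/-- Uniform dense pairs: large subsets span many edges. -/
theorem many_edges {H : SimpleGraph α} [DecidableRel H.Adj] {P : Finpartition (univ : Finset α)}
    {ε : ℝ} (hε : 0 < ε) {U W : Finset α} (h : (Gam H P ε).Adj U W) {g : ℕ}
    (hU : U.card * (ε / 8) ≤ g) (hW : W.card * (ε / 8) ≤ g) {A B : Finset α} (hA : A ⊆ U)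
    (hB : B ⊆ W) (hAg : g ≤ A.card) (hBg : g ≤ B.card) (hg : 1 ≤ g) :
    ε / 8 * (g : ℝ) ^ 2 ≤ (H.interedges A B).card := by
  obtain ⟨_, _, h3, h4⟩ := h
  have hgA : (g : ℝ) ≤ A.card := by exact_mod_cast hAg
  have hgB : (g : ℝ) ≤ B.card := by exact_mod_cast hBg
  have hg0 : (1 : ℝ) ≤ g := by exact_mod_cast hg
  have h5 := h3 hA hB (hU.trans hgA) (hW.trans hgB)
  rw [abs_lt] at h5
  have h6 : ε / 8 < (H.edgeDensity A B : ℝ) := by linarith
  have hA0 : (0 : ℝ) < A.card := by linarith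
  have hB0 : (0 : ℝ) < B.card := by linarith
  have h7 : (H.edgeDensity A B : ℝ) * (A.card * B.card) = (H.interedges A B).card := by
    rw [edgeDensity_def]
    push_cast
    field_simp
  rw [← h7]
  have h8 : (g : ℝ) ^ 2 ≤ A.card * B.card := by nlinarith
  have h9 : 0 ≤ ε / 8 := by positivity
  calc ε / 8 * (g : ℝ) ^ 2 ≤ ε / 8 * (A.card * B.card) := mul_le_mul_of_nonneg_left h8 h9
    _ ≤ _ := mul_le_mul_of_nonneg_right h6.le (by positivity)

/-- The deterministic part: regularity and a path of clusters. -/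
theorem regstep {ε : ℝ} (hε : 0 < ε) (hε1 : ε ≤ 1 / 20) : ∃ c₀ : ℝ, 0 < c₀ ∧ ∃ m₀ : ℕ,
    ∀ (α : Type) [Fintype α] [DecidableEq α] (H R : SimpleGraph α) [DecidableRel H.Adj] (D : ℝ),
    m₀ ≤ Fintype.card α → 2 * ε * Fintype.card α < D →
    D * Fintype.card α ≤ 2 * H.edgeFinset.card →
    (∀ A B : Finset α, Disjoint A B → c₀ * (Fintype.card α : ℝ) ^ 2 ≤ (H.interedges A B).card →
      ∃ a ∈ A, ∃ b ∈ B, R.Adj a b) →
    ∃ (v : α) (c : R.Walk v v), c.IsCycle ∧
      (D - 2 * ε * Fintype.card α) * (1 - 2 * ε) ≤ c.length := by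
  classical
  set l : ℕ := ⌈4 / ε⌉₊ with hl
  set Bd : ℕ := SzemerediRegularity.bound (ε / 8) l with hBd
  have hBdpos : 0 < Bd := SzemerediRegularity.bound_pos _ _
  have hBdR : (0 : ℝ) < Bd := by exact_mod_cast hBdpos
  refine ⟨(ε / 8) ^ 3 / (Bd : ℝ) ^ 2, by positivity,
    max Bd (Bd * (⌈24 / ε⌉₊ + 1)), ?_⟩
  intro α _ _ H R _ D hm hD hDm hR
  set m : ℕ := Fintype.card α with hmdef
  have hm1 : Bd ≤ m := (le_max_left _ _).trans hm
  have hm2 : Bd * (⌈24 / ε⌉₊ + 1) ≤ m := (le_max_right _ _).trans hm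
  have hmpos : 0 < m := by omega
  have hne : Nonempty α := Fintype.card_pos_iff.1 hmpos
  have hlB : l ≤ Bd := SzemerediRegularity.le_bound _ _
  obtain ⟨P, hP1, hP2, hP3, hP4⟩ := szemeredi_regularity H (by positivity : 0 < ε / 8)
    (l := l) (hlB.trans hm1)
  set N : ℕ := P.parts.card with hN
  have hNl : (4 : ℝ) / ε ≤ N := (Nat.le_ceil _).trans (by exact_mod_cast hP2)
  have hN0R : (0 : ℝ) < N := lt_of_lt_of_le (by positivity) hNl
  have hN0 : 0 < N := by exact_mod_cast hN0R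
  set s : ℕ := m / N with hs
  have hNm : N * s ≤ m := Nat.mul_div_le m N
  have hsize1 : ∀ U ∈ P.parts, s ≤ U.card := by
    intro U hU
    have := hP1.average_le_card_part hU
    rwa [card_univ] at this
  have hsize2 : ∀ U ∈ P.parts, U.card ≤ s + 1 := by
    intro U hU
    have := hP1.card_part_le_average_add_one hU
    rwa [card_univ] at this
  have hslarge : ⌈24 / ε⌉₊ + 1 ≤ s := by
    rw [hs, Nat.le_div_iff_mul_le hN0, mul_comm]
    exact (Nat.mul_le_mul_right _ hP3).trans hm2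
  have hsR : 24 / ε + 1 ≤ (s : ℝ) := by
    have h1 : ((⌈24 / ε⌉₊ + 1 : ℕ) : ℝ) ≤ s := by exact_mod_cast hslarge
    push_cast at h1
    linarith [Nat.le_ceil (24 / ε)]
  have h480 : 480 ≤ 24 / ε := by
    rw [le_div_iff₀ hε]; linarith
  have hs480 : (481 : ℝ) ≤ s := by linarith
  have hεs : 24 ≤ ε * s := by
    have h1 : 24 / ε ≤ s := by linarith
    rw [div_le_iff₀ hε] at h1
    linarith
  -- the reduced graph has many edges
  have hred := regularityReduced_edges_card_aux (G := H) hε hP1 hP4 hNl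
  have hE1 := edges_reduced H P ε (s + 1) hsize2
  set EΓ : ℕ := EG.E (Gam H P ε) P.parts with hEΓ
  have hE2 : (D - 2 * ε * m) * m < EΓ * ((s : ℝ) + 1) ^ 2 := by
    have h1 : (2 : ℝ) * (H.regularityReduced P (ε / 8) (ε / 4)).edgeFinset.card ≤
        EΓ * ((s : ℝ) + 1) ^ 2 := by exact_mod_cast hE1
    rw [← hmdef] at hred
    push_cast at hred
    nlinarith
  have hmR : (0 : ℝ) < m := by exact_mod_cast hmpos
  have hDm0 : 0 < D - 2 * ε * m := by linarith
  have hEΓpos : (0 : ℝ) < EΓ := by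
    by_contra hcon
    push Not at hcon
    have h1 : (EΓ : ℝ) * ((s : ℝ) + 1) ^ 2 ≤ 0 :=
      mul_nonpos_of_nonpos_of_nonneg hcon (by positivity)
    have h2 : 0 < (D - 2 * ε * m) * m := by positivity
    linarith
  -- the path
  set κ : ℕ := ⌈(EΓ : ℝ) / N⌉₊ with hκ
  have hκ1 : 1 ≤ κ := Nat.one_le_ceil_iff.2 (by positivity)
  have hκlt : (κ - 1) * N < EΓ := by
    have h1 : (κ : ℝ) < (EΓ : ℝ) / N + 1 := Nat.ceil_lt_add_one (by positivity)
    have h2 : ((κ : ℝ) - 1) * N < EΓ := by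
      rw [← lt_div_iff₀ hN0R]; linarith
    have h3 : (((κ - 1) * N : ℕ) : ℝ) < EΓ := by
      push_cast [Nat.cast_sub hκ1]
      exact h2
    exact_mod_cast h3
  obtain ⟨S', t, f, ⟨_, hadj, hinj⟩, hκt⟩ := long_path (Gam H P ε) P.parts hκ1 hκlt
  have ht1 : 1 ≤ t := hκ1.trans hκt
  have htE : (EΓ : ℝ) ≤ t * N := by
    have h1 : (EΓ : ℝ) / N ≤ κ := Nat.le_ceil _
    have h2 : (κ : ℝ) ≤ t := by exact_mod_cast hκt
    rw [div_le_iff₀ hN0R] at h1
    exact h1.trans (mul_le_mul_of_nonneg_right h2 hN0R.le)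
  have hparts : ∀ j ≤ t, f j ∈ P.parts := by
    intro j hj
    rcases Nat.lt_or_ge j t with h1 | h1
    · exact (hadj j h1).1.1
    · have h2 : j = t - 1 + 1 := by omega
      rw [h2]
      exact (hadj (t - 1) (by omega)).1.2
  set g : ℕ := ⌈((s : ℝ) + 1) * (ε / 8)⌉₊ with hg
  have hg1 : 1 ≤ g := Nat.one_le_ceil_iff.2 (by positivity)
  have hgle : ((s : ℝ) + 1) * (ε / 8) ≤ g := Nat.le_ceil _
  have hgup : (g : ℝ) < ((s : ℝ) + 1) * (ε / 8) + 1 := Nat.ceil_lt_add_one (by positivity)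
  set h : ℕ := s / 2 with hh
  have hhR : (s : ℝ) ≤ 2 * h + 1 := by
    have : s ≤ 2 * h + 1 := by omega
    exact_mod_cast this
  have h5g : 5 * g ≤ h := by
    have h1 : (5 : ℝ) * g ≤ h := by nlinarith
    exact_mod_cast h1
  have hsz : ∀ j ≤ t, ((f j).card : ℝ) * (ε / 8) ≤ g := by
    intro j hj
    have h1 : ((f j).card : ℝ) ≤ s + 1 := by exact_mod_cast hsize2 _ (hparts j hj)
    exact (mul_le_mul_of_nonneg_right h1 (by positivity)).trans hgle
  have hthr : (ε / 8) ^ 3 / (Bd : ℝ) ^ 2 * (m : ℝ) ^ 2 ≤ ε / 8 * (g : ℝ) ^ 2 := by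
    have h1 : (m : ℝ) / Bd ≤ s + 1 := by
      have h2 : (m : ℝ) < N * (s + 1) := by
        have := Nat.lt_mul_div_succ m hN0
        rw [← hs] at this
        exact_mod_cast this
      have h3 : (N : ℝ) ≤ Bd := by exact_mod_cast hP3
      rw [div_le_iff₀ hBdR]
      nlinarith
    have h4 : (m : ℝ) / Bd * (ε / 8) ≤ g :=
      (mul_le_mul_of_nonneg_right h1 (by positivity)).trans hgle
    have h5 : ((m : ℝ) / Bd * (ε / 8)) ^ 2 ≤ (g : ℝ) ^ 2 :=
      pow_le_pow_left₀ (by positivity) h4 2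
    calc (ε / 8) ^ 3 / (Bd : ℝ) ^ 2 * (m : ℝ) ^ 2
        = ε / 8 * ((m : ℝ) / Bd * (ε / 8)) ^ 2 := by field_simp
      _ ≤ _ := mul_le_mul_of_nonneg_left h5 (by positivity)
  have hfdis : ∀ i ≤ t, ∀ j ≤ t, i ≠ j → Disjoint (f i) (f j) := by
    intro i hi j hj hij
    exact P.disjoint (hparts i hi) (hparts j hj) (fun h1 => hij (hinj hi hj h1))
  obtain ⟨L, hL1, hL2, hL3, hL4⟩ := clusters (R := R) (t := t) (h := h) (g := g) ht1 hg1 h5g f
    (fun j hj => by
      have := hsize1 _ (hparts j hj)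
      omega) hfdis
    (fun j hj A' hA' B' hB' hgA hgB => by
      refine hR A' B' ?_ ?_
      · exact (hfdis j (by omega) (j + 1) (by omega) (by omega)).mono hA' hB'
      · exact hthr.trans (many_edges hε (hadj j hj) (hsz j (by omega)) (hsz (j + 1) (by omega))
          hA' hB' hgA hgB hg1))
  have hgs : (g : ℝ) ≤ h / 5 := by
    have : (5 : ℝ) * g ≤ h := by exact_mod_cast h5g
    linarith
  have hlen0 : ((t * (2 * h - 8 * g) : ℕ) : ℝ) = t * (2 * (h : ℝ) - 8 * g) := by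
    rw [Nat.cast_mul, Nat.cast_sub (by omega)]
    push_cast
    ring
  have hlen1 : (t : ℝ) * (2 * (h : ℝ) - 8 * g) ≤ L.length := by
    rw [← hlen0]; exact_mod_cast hL4
  have ht1R : (1 : ℝ) ≤ t := by exact_mod_cast ht1
  have hlen2 : (s : ℝ) * (1 - ε) - 10 ≤ 2 * (h : ℝ) - 8 * g := by nlinarith
  have hL3' : 3 ≤ L.length := by
    have h1 : (3 : ℝ) ≤ s * (1 - ε) - 10 := by nlinarith
    have h2 : (3 : ℝ) ≤ L.length := by nlinarith
    exact_mod_cast h2
  obtain ⟨v, c, hc, hclen, _⟩ :=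
    Pool.Agent.Helper231.LC.Lc.list_cycle R L hL3' hL1 hL2 hL3
  refine ⟨v, c, hc, ?_⟩
  rw [hclen]
  refine le_trans ?_ hlen1
  -- numerics
  have hs0 : (0 : ℝ) < s := by linarith
  have hA : (D - 2 * ε * m) * s ≤ t * ((s : ℝ) + 1) ^ 2 := by
    have h1 : (N : ℝ) * s ≤ m := by exact_mod_cast hNm
    have h2 : (D - 2 * ε * m) * (N * s) ≤ (D - 2 * ε * m) * m :=
      mul_le_mul_of_nonneg_left h1 hDm0.le
    have h3 : (EΓ : ℝ) * ((s : ℝ) + 1) ^ 2 ≤ t * N * ((s : ℝ) + 1) ^ 2 :=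
      mul_le_mul_of_nonneg_right htE (by positivity)
    have h4 : N * ((D - 2 * ε * m) * s) ≤ N * (t * ((s : ℝ) + 1) ^ 2) := by nlinarith
    exact le_of_mul_le_mul_left h4 hN0R
  have hB : (1 - 2 * ε) * ((s : ℝ) + 1) ^ 2 ≤ s * (s * (1 - ε) - 10) := by nlinarith
  have h12 : 0 ≤ 1 - 2 * ε := by linarith
  have hC : s * ((D - 2 * ε * m) * (1 - 2 * ε)) ≤ s * (t * (s * (1 - ε) - 10)) := by
    calc s * ((D - 2 * ε * m) * (1 - 2 * ε)) = (D - 2 * ε * m) * s * (1 - 2 * ε) := by ring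
      _ ≤ t * ((s : ℝ) + 1) ^ 2 * (1 - 2 * ε) := mul_le_mul_of_nonneg_right hA h12
      _ = t * ((1 - 2 * ε) * ((s : ℝ) + 1) ^ 2) := by ring
      _ ≤ t * (s * (s * (1 - ε) - 10)) := mul_le_mul_of_nonneg_left hB (by positivity)
      _ = _ := by ring
  calc (D - 2 * ε * m) * (1 - 2 * ε) ≤ t * (s * (1 - ε) - 10) := le_of_mul_le_mul_left hC hs0
    _ ≤ _ := mul_le_mul_of_nonneg_left hlen2 (by positivity)

end Pool.Agent.Hq78.LC
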