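import Pool.Agent.Hq78.LC.Expo

set_option autoImplicit false
set_option linter.unusedSectionVars false

open Finset

namespace Pool.Agent.Hq78.LC

variable {V : Type} [DecidableEq V]

/-- the edges of `E` between `A` and `B` -/
def eb (E : Finset (Sym2 V)) (A B : Finset V) : Finset (Sym2 V) :=
  E.filter (fun e => ∃ x ∈ A ×ˢ B, e = s(x.1, x.2))

open Classical in
/-- The second round of exposure. -/
theorem second_round (E : Finset (Sym2 V)) (X : Finset V) {p : ℝ} (h0 : 0 ≤ p) (h1 : p ≤ 1)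
    (M : ℕ) :
    Ex E p (fun S => if (∃ A ⊆ X, ∃ B ⊆ X, M ≤ (eb E A B).card ∧ Disjoint S (eb E A B))
      then 1 else 0) ≤ Real.exp (X.card * Real.log 4 - p * M) := by
  set F : Finset (Finset V × Finset V) := (X.powerset ×ˢ X.powerset).filter
    (fun x => M ≤ (eb E x.1 x.2).card) with hF
  have hstep1 : Ex E p (fun S => if (∃ A ⊆ X, ∃ B ⊆ X, M ≤ (eb E A B).card ∧
      Disjoint S (eb E A B)) then 1 else 0) ≤
      Ex E p (fun S => ∑ x ∈ F, if ∅ ⊆ S ∧ Disjoint S (eb E x.1 x.2) then (1 : ℝ) else 0) := by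
    refine Ex_mono h0 h1 fun S _ => ?_
    have hnn : ∀ x ∈ F, 0 ≤ (if ∅ ⊆ S ∧ Disjoint S (eb E x.1 x.2) then (1 : ℝ) else 0) := by
      intro ρ _; split_ifs <;> norm_num
    split_ifs with h
    · obtain ⟨A, hA, B, hB, h2, h3⟩ := h
      have hxF : (A, B) ∈ F := by
        rw [hF, mem_filter, mem_product, mem_powerset, mem_powerset]
        exact ⟨⟨hA, hB⟩, h2⟩
      refine le_trans ?_ (single_le_sum hnn hxF)
      rw [if_pos ⟨empty_subset _, h3⟩]
    · exact sum_nonneg hnn
  refine hstep1.trans ?_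
  rw [Ex_sum]
  have h6 : 0 ≤ 1 - p := by linarith
  have hstep2 : ∀ x ∈ F, Ex E p (fun S => if ∅ ⊆ S ∧ Disjoint S (eb E x.1 x.2) then (1 : ℝ) else 0)
      ≤ (1 - p) ^ M := by
    intro x hx
    rw [hF, mem_filter] at hx
    rw [Ex_event (A := ∅) (B := eb E x.1 x.2) (empty_subset _)
      (by unfold eb; exact filter_subset _ _) (disjoint_empty_left _)]
    rw [card_empty, pow_zero, one_mul]
    exact pow_le_pow_of_le_one h6 (by linarith) hx.2
  refine (sum_le_sum hstep2).trans ?_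
  rw [sum_const, nsmul_eq_mul]
  have h7 : (F.card : ℝ) ≤ 4 ^ X.card := by
    have h8 : F.card ≤ (X.powerset ×ˢ X.powerset).card := card_le_card (filter_subset _ _)
    rw [card_product, card_powerset, ← mul_pow] at h8
    calc (F.card : ℝ) ≤ (((2 * 2) ^ X.card : ℕ) : ℝ) := by exact_mod_cast h8
      _ = 4 ^ X.card := by norm_num
  have h3 : (1 - p) ^ M ≤ Real.exp (-(p * M)) := by
    have h4 : 1 - p ≤ Real.exp (-p) := by
      have := Real.add_one_le_exp (-p); linarith
    calc (1 - p) ^ M ≤ Real.exp (-p) ^ M := pow_le_pow_left₀ (by linarith) h4 M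
      _ = _ := by rw [← Real.exp_nat_mul]; congr 1; ring
  have h5 : (4 : ℝ) ^ X.card = Real.exp (X.card * Real.log 4) := by
    rw [Real.exp_nat_mul, Real.exp_log (by norm_num)]
  calc (F.card : ℝ) * (1 - p) ^ M ≤ 4 ^ X.card * Real.exp (-(p * M)) :=
        mul_le_mul h7 h3 (pow_nonneg h6 _) (by positivity)
    _ = _ := by rw [h5, ← Real.exp_add]; congr 1

end Pool.Agent.Hq78.LC
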