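import Pool.Agent.Hq78.LC.Union
import Pool.Agent.Hq78.LC.Second
import Pool.Agent.Hq78.LC.Reg

set_option autoImplicit false
set_option linter.unusedSectionVars false

open Finset N943.NT SimpleGraph

namespace Pool.Agent.Hq78.LC

variable {V : Type} [Fintype V] [DecidableEq V]

/-- the graph with edge set `S` -/
abbrev gr (S : Finset (Sym2 V)) : SimpleGraph V := SimpleGraph.fromEdgeSet (S : Set (Sym2 V))

theorem gr_adj {S : Finset (Sym2 V)} {u v : V} : (gr S).Adj u v ↔ s(u, v) ∈ S ∧ u ≠ v := by
  simp [gr]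

theorem hasCyc_mono {S T : Finset (Sym2 V)} (h : S ⊆ T) {l : ℕ} (hS : HasCyc l (gr S)) :
    HasCyc l (gr T) := by
  obtain ⟨v, c, hc, hl⟩ := hS
  have hle : gr S ≤ gr T := SimpleGraph.fromEdgeSet_mono (by exact_mod_cast h)
  exact ⟨v, c.mapLe hle, hc.mapLe hle, by simpa using hl⟩

/-- edges of `E` inside `X` -/
def inn (E : Finset (Sym2 V)) (X : Finset V) : Finset (Sym2 V) := E.filter (fun e => ∀ x ∈ e, x ∈ X)

/-- The second round, deterministic part. -/
theorem spot_cycle {ε : ℝ} (hε : 0 < ε) (hε1 : ε ≤ 1 / 20) : ∃ c₀ : ℝ, 0 < c₀ ∧ ∃ m₀ : ℕ,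
    ∀ (V : Type) [Fintype V] [DecidableEq V] (E T : Finset (Sym2 V)) (X : Finset V) (D : ℝ),
    (∀ e ∈ E, ¬ e.IsDiag) → X.Nonempty → (m₀ : ℝ) ≤ D → 0 ≤ D → 2 * ε * X.card < D →
    D * X.card ≤ 2 * (inn E X).card →
    (∀ A ⊆ X, ∀ B ⊆ X, c₀ * D ^ 2 ≤ (eb E A B).card → ¬ Disjoint T (eb E A B)) →
    ∃ (v : V) (c : (gr T).Walk v v), c.IsCycle ∧
      (D - 2 * ε * X.card) * (1 - 2 * ε) ≤ c.length := by
  classical
  obtain ⟨c₀, hc₀, m₀, hreg⟩ := regstep hε hε1
  refine ⟨c₀, hc₀, m₀, ?_⟩
  intro V _ _ E T X D hE hXne hmD hD0 hXD hDX hT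
  set H : SimpleGraph X := (gr E).comap (Subtype.val) with hH
  set R : SimpleGraph X := (gr T).comap (Subtype.val) with hR
  have hXc : (0 : ℝ) < X.card := by exact_mod_cast hXne.card_pos
  have hcard : Fintype.card X = X.card := Fintype.card_coe X
  have hedges : (inn E X).card ≤ H.edgeFinset.card := by
    have h1 : inn E X ⊆ H.edgeFinset.image (Sym2.map Subtype.val) := by
      intro e he
      unfold inn at he
      rw [mem_filter] at he
      obtain ⟨h2, h3⟩ := he
      induction e using Sym2.ind with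
      | _ a b =>
        have ha : a ∈ X := h3 a (by simp)
        have hb : b ∈ X := h3 b (by simp)
        rw [mem_image]
        refine ⟨s(⟨a, ha⟩, ⟨b, hb⟩), ?_, by simp⟩
        rw [SimpleGraph.mem_edgeFinset, SimpleGraph.mem_edgeSet, hH, SimpleGraph.comap_adj, gr_adj]
        exact ⟨h2, fun h4 => hE _ h2 (by simpa using h4)⟩
    exact (card_le_card h1).trans card_image_le
  have hDle : D ≤ X.card := by
    have h1 : H.edgeFinset.card ≤ (Fintype.card X).choose 2 := H.card_edgeFinset_le_card_choose_two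
    rw [hcard] at h1
    have h2 : 2 * (X.card).choose 2 ≤ X.card * X.card := by
      rw [Nat.choose_two_right]
      have := Nat.mul_div_le (X.card * (X.card - 1)) 2
      exact this.trans (Nat.mul_le_mul_left _ (Nat.sub_le _ _))
    have h3 : (2 : ℝ) * (inn E X).card ≤ X.card * X.card := by
      have : 2 * (inn E X).card ≤ X.card * X.card := by omega
      exact_mod_cast this
    have h4 : D * X.card ≤ X.card * X.card := hDX.trans h3
    exact le_of_mul_le_mul_right h4 hXc
  obtain ⟨v, c, hc, hlen⟩ := hreg X H R D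
    (by rw [hcard]; exact_mod_cast hmD.trans hDle) (by rw [hcard]; exact hXD)
    (by
      rw [hcard]
      refine hDX.trans ?_
      have : ((inn E X).card : ℝ) ≤ H.edgeFinset.card := by exact_mod_cast hedges
      linarith)
    (by
      intro A B hAB hint
      rw [hcard] at hint
      set A' : Finset V := A.map (Function.Embedding.subtype _) with hA'
      set B' : Finset V := B.map (Function.Embedding.subtype _) with hB'
      have hA'X : A' ⊆ X := by
        intro x hx
        rw [hA', mem_map] at hx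
        obtain ⟨y, _, rfl⟩ := hx
        exact y.2
      have hB'X : B' ⊆ X := by
        intro x hx
        rw [hB', mem_map] at hx
        obtain ⟨y, _, rfl⟩ := hx
        exact y.2
      have hcnt : (H.interedges A B).card ≤ (eb E A' B').card := by
        apply card_le_card_of_injOn (fun x => s((x.1 : V), (x.2 : V)))
        · intro x hx
          rw [mem_coe, SimpleGraph.mem_interedges_iff] at hx
          obtain ⟨hxA, hxB, hadj⟩ := hx
          rw [hH, SimpleGraph.comap_adj, gr_adj] at hadj
          rw [mem_coe]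
          unfold eb
          rw [mem_filter]
          refine ⟨hadj.1, (x.1, x.2), ?_, rfl⟩
          rw [mem_product]
          exact ⟨mem_map_of_mem (Function.Embedding.subtype _) hxA,
            mem_map_of_mem (Function.Embedding.subtype _) hxB⟩
        · intro x hx y hy hxy
          rw [mem_coe, SimpleGraph.mem_interedges_iff] at hx hy
          simp only [Sym2.eq_iff] at hxy
          rcases hxy with ⟨h1, h2⟩ | ⟨h1, h2⟩
          · exact Prod.ext (Subtype.ext h1) (Subtype.ext h2)
          · exfalso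
            have h3 : x.1 = y.2 := Subtype.ext h1
            exact disjoint_left.1 hAB hx.1 (h3 ▸ hy.2.1)
      have h5 : c₀ * D ^ 2 ≤ (eb E A' B').card := by
        have h6 : c₀ * D ^ 2 ≤ c₀ * (X.card : ℝ) ^ 2 :=
          mul_le_mul_of_nonneg_left (pow_le_pow_left₀ hD0 hDle 2) hc₀.le
        have h7 : ((H.interedges A B).card : ℝ) ≤ (eb E A' B').card := by exact_mod_cast hcnt
        linarith
      have h6 := hT A' hA'X B' hB'X h5
      rw [not_disjoint_iff] at h6
      obtain ⟨e, heT, heb⟩ := h6
      unfold eb at heb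
      rw [mem_filter] at heb
      obtain ⟨heE, x, hx, rfl⟩ := heb
      rw [mem_product, hA', hB', mem_map, mem_map] at hx
      obtain ⟨⟨a, ha, hax⟩, ⟨b, hb, hbx⟩⟩ := hx
      refine ⟨a, ha, b, hb, ?_⟩
      rw [hR, SimpleGraph.comap_adj, gr_adj]
      have hax' : (a : V) = x.1 := hax
      have hbx' : (b : V) = x.2 := hbx
      rw [hax', hbx']
      exact ⟨heT, fun h7 => hE _ heE (by simpa using h7)⟩)
  set φ : R →g gr T := ⟨Subtype.val, fun {a b} h => h⟩ with hφ
  refine ⟨_, c.map φ, hc.map (f := φ) Subtype.val_injective, ?_⟩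
  rw [hcard] at hlen
  simpa using hlen

end Pool.Agent.Hq78.LC
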