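import Pool.Agent.Hq78.LC.Dfs

set_option autoImplicit false
set_option linter.unusedSectionVars false

open Finset

namespace Pool.Agent.Hq78.LC

variable {V : Type} [DecidableEq V]

theorem pair_fn [Nonempty V] {R : SimpleGraph V} {A B : Finset V} (hAB : Disjoint A B) {h g : ℕ}
    (hA : A.card = h) (hB : B.card = h) (hs : Star R g A B) (hg : 1 ≤ g) :
    ∃ (f : ℕ → V) (q : ℕ), (∀ i < q, f (2 * i) ∈ A) ∧ (∀ i < q, f (2 * i + 1) ∈ B) ∧
      (∀ i, i + 1 < 2 * q → R.Adj (f i) (f (i + 1))) ∧
      (∀ i < 2 * q, ∀ j < 2 * q, f i = f j → i = j) ∧ h ≤ q + 2 * g := by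
  obtain ⟨P, hnd, hch, hmem, hhead, hlen⟩ := pair_path hAB hA hB hs hg
  obtain ⟨x0⟩ := ‹Nonempty V›
  set f : ℕ → V := fun i => if h : i < P.length then P[i] else x0 with hf
  have hfi : ∀ (i : ℕ) (h : i < P.length), f i = P[i] := fun i h => by simp [hf, h]
  have hadj : ∀ i, i + 1 < P.length → ab R A B (f i) (f (i + 1)) := by
    intro i hi
    rw [hfi i (by omega), hfi (i + 1) hi]
    rw [List.isChain_iff_getElem] at hch
    exact hch i hi
  have hpar : ∀ i, i < P.length → (i % 2 = 0 → f i ∈ A) ∧ (i % 2 = 1 → f i ∈ B) := by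
    intro i
    induction i with
    | zero =>
      intro h0
      refine ⟨fun _ => ?_, fun h1 => by simp at h1⟩
      apply hhead
      rw [hfi 0 h0, List.head?_eq_getElem?, List.getElem?_eq_getElem h0]
      rfl
    | succ i ih =>
      intro hi
      have h1 := ih (by omega)
      have h2 := hadj i hi
      constructor
      · intro h3
        have h4 := h1.2 (by omega)
        rcases h2.2 with h5 | h5
        · exact absurd h5.1 (disjoint_right.1 hAB h4)
        · exact h5.2
      · intro h3
        have h4 := h1.1 (by omega)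
        rcases h2.2 with h5 | h5
        · exact h5.2
        · exact absurd h5.1 (disjoint_left.1 hAB h4)
  refine ⟨f, P.length / 2, fun i hi => (hpar _ (by omega)).1 (by omega), fun i hi =>
    (hpar _ (by omega)).2 (by omega), fun i hi => (hadj i (by omega)).1, fun i hi j hj hij => ?_,
    by omega⟩
  rw [hfi i (by omega), hfi j (by omega)] at hij
  exact (List.Nodup.getElem_inj_iff hnd).1 hij

theorem link [Nonempty V] {R : SimpleGraph V} {r h g : ℕ} (hr : 1 ≤ r) (hg : 1 ≤ g)
    (hgh : 5 * g ≤ h) (A B : ℕ → Finset V)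
    (hAh : ∀ i < r, (A i).card = h) (hBh : ∀ i < r, (B i).card = h)
    (hAB : ∀ i < r, Disjoint (A i) (B i))
    (hdis : ∀ i < r, ∀ j < r, i ≠ j → Disjoint (A i ∪ B i) (A j ∪ B j))
    (s1 : ∀ i < r, Star R g (A i) (B i)) (s2 : ∀ i < r, Star R g (B i) (A ((i + 1) % r))) :
    ∃ l : List V, l.Nodup ∧ l.IsChain R.Adj ∧
      (∀ x ∈ l.getLast?, ∀ y ∈ l.head?, R.Adj x y) ∧ r * (2 * h - 8 * g) ≤ l.length := by
  have hex : ∀ i, ∃ (f : ℕ → V) (q : ℕ), i < r → ((∀ j < q, f (2 * j) ∈ A i) ∧
      (∀ j < q, f (2 * j + 1) ∈ B i) ∧ (∀ j, j + 1 < 2 * q → R.Adj (f j) (f (j + 1))) ∧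
      (∀ j < 2 * q, ∀ k < 2 * q, f j = f k → j = k) ∧ h ≤ q + 2 * g) := by
    intro i
    by_cases hi : i < r
    · obtain ⟨f, q, h1⟩ := pair_fn (hAB i hi) (hAh i hi) (hBh i hi) (s1 i hi) hg
      exact ⟨f, q, fun _ => h1⟩
    · exact ⟨fun _ => Classical.arbitrary V, 0, fun h => absurd h hi⟩
  choose f q hfq using hex
  have hq3 : ∀ i < r, 3 * g ≤ q i := fun i hi => by
    have := (hfq i hi).2.2.2.2
    omega
  -- the linking edges
  have hlink : ∀ i, ∃ β α' : ℕ, i < r → (2 * q i ≤ β + 2 * g ∧ β < 2 * q i ∧ α' < 2 * g ∧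
      R.Adj (f i β) (f ((i + 1) % r) α')) := by
    intro i
    by_cases hi : i < r
    · have hi' : (i + 1) % r < r := Nat.mod_lt _ (by omega)
      set k := (i + 1) % r with hk
      obtain ⟨-, a2, -, a4, -⟩ := hfq i hi
      obtain ⟨b1, -, -, b4, -⟩ := hfq k hi'
      have c1 := hq3 i hi
      have c2 := hq3 k hi'
      have hE : ((range g).image (fun j => f i (2 * (q i - 1 - j) + 1))).card = g := by
        rw [card_image_of_injOn, card_range]
        intro x hx y hy hxy
        rw [mem_coe, mem_range] at hx hy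
        have := a4 _ (by omega) _ (by omega) hxy
        omega
      have hF : ((range g).image (fun j => f k (2 * j))).card = g := by
        rw [card_image_of_injOn, card_range]
        intro x hx y hy hxy
        rw [mem_coe, mem_range] at hx hy
        have := b4 _ (by omega) _ (by omega) hxy
        omega
      obtain ⟨b, hb, a, ha, hba⟩ := s2 i hi ((range g).image (fun j => f i (2 * (q i - 1 - j) + 1)))
        (by
          intro x hx
          rw [mem_image] at hx
          obtain ⟨j, hj, rfl⟩ := hx
          rw [mem_range] at hj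
          exact a2 _ (by omega)) ((range g).image (fun j => f k (2 * j)))
        (by
          intro x hx
          rw [mem_image] at hx
          obtain ⟨j, hj, rfl⟩ := hx
          rw [mem_range] at hj
          exact b1 _ (by omega)) (by rw [hE]) (by rw [hF])
      rw [mem_image] at hb ha
      obtain ⟨j, hj, rfl⟩ := hb
      obtain ⟨j', hj', rfl⟩ := ha
      rw [mem_range] at hj hj'
      exact ⟨_, _, fun _ => ⟨by omega, by omega, by omega, hba⟩⟩
    · exact ⟨0, 0, fun h => absurd h hi⟩
  choose β α' hβα using hlink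
  set α : ℕ → ℕ := fun i => α' ((i + r - 1) % r) with hα
  have hα1 : ∀ i < r, α i < 2 * g := fun i hi => (hβα _ (Nat.mod_lt _ (by omega))).2.2.1
  set M : ℕ → List V := fun i => (List.range' (α i) (β i + 1 - α i)).map (f i) with hM
  have hαβ : ∀ i < r, α i + 2 * q i ≤ β i + 4 * g ∧ α i < β i ∧ β i < 2 * q i := fun i hi => by
    have h1 := hα1 i hi
    have h2 := hβα i hi
    have h3 := hq3 i hi
    omega
  have hMnd : ∀ i < r, (M i).Nodup := by
    intro i hi
    rw [hM]
    simp only
    rw [List.nodup_map_iff_inj_on List.nodup_range']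
    intro x hx y hy hxy
    rw [List.mem_range'_1] at hx hy
    have h1 := hαβ i hi
    exact (hfq i hi).2.2.2.1 x (by omega) y (by omega) hxy
  have hMch : ∀ i < r, (M i).IsChain R.Adj := by
    intro i hi
    have h1 := hαβ i hi
    rw [hM, List.isChain_iff_getElem]
    intro j hj
    simp only [List.length_map, List.length_range'] at hj
    simp only [List.getElem_map, List.getElem_range', one_mul]
    exact (hfq i hi).2.2.1 _ (by omega)
  have hMmem : ∀ i < r, ∀ x ∈ M i, x ∈ A i ∪ B i := by
    intro i hi x hx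
    rw [hM] at hx
    simp only [List.mem_map, List.mem_range'_1] at hx
    obtain ⟨j, hj, rfl⟩ := hx
    have h1 := hαβ i hi
    rw [mem_union]
    rcases Nat.even_or_odd' j with ⟨k, hk | hk⟩
    · left; rw [hk]; exact (hfq i hi).1 k (by omega)
    · right; rw [hk]; exact (hfq i hi).2.1 k (by omega)
  have hMhead : ∀ i < r, (M i).head? = some (f i (α i)) := by
    intro i hi
    have h1 := hαβ i hi
    rw [hM]
    simp only [List.head?_map]
    rw [List.head?_range', if_neg (by omega)]
    rfl
  have hMlast : ∀ i < r, (M i).getLast? = some (f i (β i)) := by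
    intro i hi
    have h1 := hαβ i hi
    rw [hM]
    simp only [List.getLast?_map]
    rw [List.getLast?_range', if_neg (by omega)]
    simp only [Option.map_some, Option.some.injEq]
    congr 1
    omega
  have hMlen : ∀ i < r, 2 * h - 8 * g ≤ (M i).length := by
    intro i hi
    have h1 := hαβ i hi
    have h2 := (hfq i hi).2.2.2.2
    rw [hM]
    simp only [List.length_map, List.length_range']
    omega
  -- join the pieces
  have hjoin : ∀ m, 1 ≤ m → m ≤ r → ∃ l : List V, l.Nodup ∧ l.IsChain R.Adj ∧
      l.head? = some (f 0 (α 0)) ∧ l.getLast? = some (f (m - 1) (β (m - 1))) ∧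
      (∀ x ∈ l, ∃ i < m, x ∈ A i ∪ B i) ∧ m * (2 * h - 8 * g) ≤ l.length := by
    intro m
    induction m with
    | zero => intro h; omega
    | succ m ih =>
      intro _ hm
      rcases Nat.eq_zero_or_pos m with h0 | h0
      · subst h0
        refine ⟨M 0, hMnd 0 (by omega), hMch 0 (by omega), hMhead 0 (by omega),
          hMlast 0 (by omega), fun x hx => ⟨0, by omega, hMmem 0 (by omega) x hx⟩, ?_⟩
        rw [zero_add, one_mul]
        exact hMlen 0 (by omega)
      · obtain ⟨l, l1, l2, l3, l4, l5, l6⟩ := ih h0 (by omega)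
        have hmr : m < r := by omega
        refine ⟨l ++ M m, ?_, ?_, ?_, ?_, ?_, ?_⟩
        · rw [List.nodup_append]
          refine ⟨l1, hMnd m hmr, ?_⟩
          intro x hx y hy hxy
          subst hxy
          obtain ⟨i, hi, hxi⟩ := l5 x hx
          exact disjoint_left.1 (hdis i (by omega) m hmr (by omega)) hxi (hMmem m hmr x hy)
        · rw [List.isChain_append]
          refine ⟨l2, hMch m hmr, ?_⟩
          intro x hx y hy
          rw [l4] at hx
          rw [hMhead m hmr] at hy
          have h1 : f (m - 1) (β (m - 1)) = x := by simpa using hx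
          have h2 : f m (α m) = y := by simpa using hy
          have h3 := (hβα (m - 1) (by omega)).2.2.2
          have h4 : (m - 1 + 1) % r = m := by
            rw [Nat.sub_add_cancel h0, Nat.mod_eq_of_lt hmr]
          have h5 : (m + r - 1) % r = m - 1 := by
            rw [show m + r - 1 = m - 1 + r by omega, Nat.add_mod_right,
              Nat.mod_eq_of_lt (by omega)]
          rw [h4] at h3
          rw [← h1, ← h2]
          simp only [hα, h5]
          exact h3
        · rw [List.head?_append, l3]; rfl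
        · rw [List.getLast?_append, hMlast m hmr]
          simp
        · intro x hx
          rw [List.mem_append] at hx
          rcases hx with hx | hx
          · obtain ⟨i, hi, hxi⟩ := l5 x hx
            exact ⟨i, by omega, hxi⟩
          · exact ⟨m, by omega, hMmem m hmr x hx⟩
        · rw [List.length_append, add_mul, one_mul]
          exact Nat.add_le_add l6 (hMlen m hmr)
  obtain ⟨l, l1, l2, l3, l4, l5, l6⟩ := hjoin r hr le_rfl
  refine ⟨l, l1, l2, ?_, l6⟩
  intro x hx y hy
  rw [l4] at hx
  rw [l3] at hy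
  have h1 : f (r - 1) (β (r - 1)) = x := by simpa using hx
  have h2 : f 0 (α 0) = y := by simpa using hy
  have h3 := (hβα (r - 1) (by omega)).2.2.2
  have h4 : (r - 1 + 1) % r = 0 := by rw [Nat.sub_add_cancel hr, Nat.mod_self]
  have h5 : (0 + r - 1) % r = r - 1 := by
    rw [zero_add, Nat.mod_eq_of_lt (by omega)]
  rw [h4] at h3
  rw [← h1, ← h2]
  simp only [hα, h5]
  exact h3

end Pool.Agent.Hq78.LC
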