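import Pool.Agent.Hq78.LC.Apex
import Pool.Agent.Hq78.LC.Expo

set_option autoImplicit false
set_option linter.unusedSectionVars false

open Finset N943.NT

namespace Pool.Agent.Hq78.LC

variable {V : Type} [Fintype V] [DecidableEq V]

/-- degree in an edge set -/
def dg (E : Finset (Sym2 V)) (v : V) : ℕ := (univ.filter (fun u => s(v, u) ∈ E)).card

theorem sum_dg_le (E : Finset (Sym2 V)) : ∑ v, dg E v ≤ 2 * E.card := by
  have h1 : ∑ v, dg E v = ((univ : Finset (V × V)).filter (fun x => s(x.1, x.2) ∈ E)).card := by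
    unfold dg
    simp_rw [card_filter]
    rw [← univ_product_univ, sum_product]
  have h0 := card_eq_sum_card_fiberwise (f := fun x : V × V => s(x.1, x.2))
    (s := (univ : Finset (V × V)).filter (fun x => s(x.1, x.2) ∈ E)) (t := E)
    (fun x hx => by
      rw [mem_coe, mem_filter] at hx
      exact hx.2)
  rw [h1, h0]
  have h2 : ∀ e ∈ E, (((univ : Finset (V × V)).filter (fun x => s(x.1, x.2) ∈ E)).filter
      (fun x => s(x.1, x.2) = e)).card ≤ 2 := by
    intro e _
    induction e using Sym2.ind with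
    | _ a b =>
      have h3 : (((univ : Finset (V × V)).filter (fun x => s(x.1, x.2) ∈ E)).filter
          (fun x => s(x.1, x.2) = s(a, b))) ⊆ {(a, b), (b, a)} := by
        intro x hx
        rw [mem_filter] at hx
        have h4 := hx.2
        rw [Sym2.eq_iff] at h4
        rw [mem_insert, mem_singleton]
        rcases h4 with ⟨h5, h6⟩ | ⟨h5, h6⟩
        · exact Or.inl (Prod.ext h5 h6)
        · exact Or.inr (Prod.ext h5 h6)
      exact (card_le_card h3).trans card_le_two
  calc _ ≤ ∑ _e ∈ E, 2 := sum_le_sum h2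
    _ = _ := by rw [sum_const, smul_eq_mul, mul_comm]

theorem te_subset {E : Finset (Sym2 V)} {ρ : V → Option V}
    (h : ∀ v u, ρ v = some u → s(v, u) ∈ E) : te ρ ⊆ E := by
  intro e he
  rw [te, mem_image] at he
  obtain ⟨v, hv, rfl⟩ := he
  rw [mem_filter] at hv
  cases h1 : ρ v with
  | none => exact absurd h1 hv.2
  | some u => exact h v u h1

theorem te_card {ρ : V → Option V} (hp : RT none (ext ρ)) :
    (te ρ).card = (univ.filter (fun v => ρ v ≠ none)).card := by
  unfold te
  apply card_image_of_injOn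
  intro v hv w hw h
  rw [mem_coe, mem_filter] at hv hw
  simp only at h
  cases h1 : ρ v with
  | none => exact absurd h1 hv.2
  | some u =>
    cases h2 : ρ w with
    | none => exact absurd h2 hw.2
    | some x =>
      rw [h1, h2, Option.getD_some, Option.getD_some, Sym2.eq_iff] at h
      rcases h with ⟨h3, _⟩ | ⟨h3, h4⟩
      · exact h3
      · exfalso
        have h5 : dp (ext ρ) v = dp (ext ρ) u + 1 := dp_of_parent hp h1
        have h6 : dp (ext ρ) w = dp (ext ρ) x + 1 := dp_of_parent hp h2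
        rw [← h3] at h6
        rw [h4] at h5
        omega

theorem te_disjoint_bad {E : Finset (Sym2 V)} {ρ : V → Option V} (hp : RT none (ext ρ))
    (h : ∀ v u, ρ v = some u → s(v, u) ∈ E) {L : ℕ} (hL : 2 ≤ L) :
    Disjoint (te ρ) (bad E ρ L) := by
  rw [disjoint_left]
  intro e he heB
  rw [te, mem_image] at he
  obtain ⟨v, hv, rfl⟩ := he
  rw [mem_filter] at hv
  cases h1 : ρ v with
  | none => exact absurd h1 hv.2
  | some u =>
    rw [h1, Option.getD_some] at heB
    unfold bad at heB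
    rw [mem_filter] at heB
    apply heB.2
    refine ⟨(u, v), ?_, Sym2.eq_swap⟩
    have h5 : dp (ext ρ) v = dp (ext ρ) u + 1 := dp_of_parent hp h1
    rw [mem_gp]
    refine ⟨by rw [Sym2.eq_swap]; exact h v u h1, ?_, ?_, ?_⟩
    · have : Anc (ext ρ) (ext ρ (some v)) (some v) := Anc.parent _
      rw [ext_some, h1] at this
      exact this
    · show dp (ext ρ) u < dp (ext ρ) v
      omega
    · show dp (ext ρ) v < dp (ext ρ) u + L
      omega

open Classical in
theorem union_bound (E : Finset (Sym2 V)) {p : ℝ} (h0 : 0 ≤ p) (h1 : p ≤ 1) {L : ℕ}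
    (hL : 2 ≤ L) (M : ℕ) :
    Ex E p (fun S => if (∃ ρ : V → Option V, RT none (ext ρ) ∧
      (∀ v u, ρ v = some u → s(v, u) ∈ E) ∧ te ρ ⊆ S ∧ Disjoint S (bad E ρ L) ∧
      M ≤ (bad E ρ L).card) then 1 else 0) ≤ (∏ v, (1 + p * dg E v)) * (1 - p) ^ M := by
  set T : V → Finset (Option V) := fun v =>
    insert none ((univ.filter (fun u => s(v, u) ∈ E)).image some) with hT
  set F : Finset (V → Option V) := (Fintype.piFinset T).filter (fun ρ => RT none (ext ρ) ∧
    (∀ v u, ρ v = some u → s(v, u) ∈ E) ∧ M ≤ (bad E ρ L).card) with hF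
  have hstep1 : Ex E p (fun S => if (∃ ρ : V → Option V, RT none (ext ρ) ∧
      (∀ v u, ρ v = some u → s(v, u) ∈ E) ∧ te ρ ⊆ S ∧ Disjoint S (bad E ρ L) ∧
      M ≤ (bad E ρ L).card) then 1 else 0) ≤
      Ex E p (fun S => ∑ ρ ∈ F, if te ρ ⊆ S ∧ Disjoint S (bad E ρ L) then (1 : ℝ) else 0) := by
    refine Ex_mono h0 h1 fun S _ => ?_
    have hnn : ∀ ρ ∈ F, 0 ≤ (if te ρ ⊆ S ∧ Disjoint S (bad E ρ L) then (1 : ℝ) else 0) := by
      intro ρ _; split_ifs <;> norm_num
    split_ifs with h
    · obtain ⟨ρ, h2, h3, h4, h5, h6⟩ := h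
      have hρF : ρ ∈ F := by
        rw [hF, mem_filter, Fintype.mem_piFinset]
        refine ⟨fun v => ?_, h2, h3, h6⟩
        rw [hT, mem_insert]
        cases h7 : ρ v with
        | none => exact Or.inl rfl
        | some u =>
          right
          rw [mem_image]
          exact ⟨u, by simp [h3 v u h7], rfl⟩
      refine le_trans ?_ (single_le_sum hnn hρF)
      rw [if_pos ⟨h4, h5⟩]
    · exact sum_nonneg hnn
  refine hstep1.trans ?_
  rw [Ex_sum]
  have hstep2 : ∀ ρ ∈ F, Ex E p (fun S => if te ρ ⊆ S ∧ Disjoint S (bad E ρ L) then (1 : ℝ) else 0)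
      ≤ (∏ v, (if ρ v = none then (1 : ℝ) else p)) * (1 - p) ^ M := by
    intro ρ hρ
    rw [hF, mem_filter] at hρ
    obtain ⟨_, h2, h3, h4⟩ := hρ
    rw [Ex_event (te_subset h3) (by unfold bad; exact filter_subset _ _)
      (te_disjoint_bad h2 h3 hL), te_card h2]
    have h5 : (∏ v, (if ρ v = none then (1 : ℝ) else p)) =
        p ^ (univ.filter (fun v => ρ v ≠ none)).card := by
      rw [prod_ite, prod_const_one, one_mul, prod_const]
    rw [h5]
    have h6 : 0 ≤ 1 - p := by linarith
    exact mul_le_mul_of_nonneg_left (pow_le_pow_of_le_one h6 (by linarith) h4) (by positivity)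
  refine (sum_le_sum hstep2).trans ?_
  rw [← sum_mul]
  have h6 : 0 ≤ 1 - p := by linarith
  refine mul_le_mul_of_nonneg_right ?_ (by positivity)
  have h7 : ∏ v, (1 + p * dg E v) = ∏ v, ∑ x ∈ T v, (if x = none then (1 : ℝ) else p) := by
    refine prod_congr rfl fun v _ => ?_
    rw [hT]
    simp only
    rw [sum_insert (by simp), if_pos rfl, sum_image (by intro a _ b _ h; simpa using h)]
    simp [dg, mul_comm]
  rw [h7, prod_univ_sum]
  refine sum_le_sum_of_subset_of_nonneg (filter_subset _ _) fun ρ _ _ => ?_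
  refine prod_nonneg fun v _ => ?_
  split_ifs
  · norm_num
  · exact h0

theorem prod_le_pow {x : V → ℝ} (hx : ∀ v, 0 ≤ x v) {a : ℝ} (ha : 0 ≤ a)
    (h : ∑ v, x v ≤ a * Fintype.card V) : ∏ v, (1 + x v) ≤ (1 + a) ^ Fintype.card V := by
  have h1 : ∀ v, 1 + x v ≤ (1 + a) * Real.exp ((x v - a) / (1 + a)) := by
    intro v
    have h2 := Real.add_one_le_exp ((x v - a) / (1 + a))
    have h3 : 0 < 1 + a := by linarith
    calc 1 + x v = (1 + a) * ((x v - a) / (1 + a) + 1) := by field_simp; ring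
      _ ≤ _ := mul_le_mul_of_nonneg_left h2 h3.le
  calc ∏ v, (1 + x v) ≤ ∏ v, ((1 + a) * Real.exp ((x v - a) / (1 + a))) :=
        prod_le_prod (fun v _ => by linarith [hx v]) fun v _ => h1 v
    _ = (1 + a) ^ Fintype.card V * Real.exp (∑ v, (x v - a) / (1 + a)) := by
        rw [prod_mul_distrib, prod_const, card_univ, Real.exp_sum]
    _ ≤ (1 + a) ^ Fintype.card V * 1 := by
        refine mul_le_mul_of_nonneg_left ?_ (by positivity)
        rw [Real.exp_le_one_iff, ← sum_div]
        apply div_nonpos_of_nonpos_of_nonneg _ (by linarith)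
        rw [sum_sub_distrib, sum_const, card_univ, nsmul_eq_mul]
        linarith
    _ = _ := mul_one _

open Classical in
/-- The first round of exposure. -/
theorem first_round (E : Finset (Sym2 V)) {p : ℝ} (h0 : 0 ≤ p) (h1 : p ≤ 1) {L : ℕ}
    (hL : 2 ≤ L) (M : ℕ) {a : ℝ} (ha : 2 * p * E.card ≤ a * Fintype.card V) (ha0 : 0 ≤ a) :
    Ex E p (fun S => if (∃ ρ : V → Option V, RT none (ext ρ) ∧
      (∀ v u, ρ v = some u → s(v, u) ∈ E) ∧ te ρ ⊆ S ∧ Disjoint S (bad E ρ L) ∧
      M ≤ (bad E ρ L).card) then 1 else 0) ≤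
      Real.exp (Fintype.card V * Real.log (1 + a) - p * M) := by
  refine (union_bound E h0 h1 hL M).trans ?_
  have h2 : ∏ v, (1 + p * dg E v) ≤ (1 + a) ^ Fintype.card V := by
    refine prod_le_pow (fun v => by positivity) ha0 ?_
    rw [← mul_sum]
    have h3 := sum_dg_le E
    have h4 : (∑ v, (dg E v : ℝ)) ≤ 2 * E.card := by exact_mod_cast h3
    calc p * ∑ v, (dg E v : ℝ) ≤ p * (2 * E.card) := mul_le_mul_of_nonneg_left h4 h0
      _ = 2 * p * E.card := by ring
      _ ≤ _ := ha
  have h3 : (1 - p) ^ M ≤ Real.exp (-(p * M)) := by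
    have h4 : 1 - p ≤ Real.exp (-p) := by
      have := Real.add_one_le_exp (-p); linarith
    calc (1 - p) ^ M ≤ Real.exp (-p) ^ M := pow_le_pow_left₀ (by linarith) h4 M
      _ = _ := by rw [← Real.exp_nat_mul]; congr 1; ring
  have h5 : (1 + a) ^ Fintype.card V = Real.exp (Fintype.card V * Real.log (1 + a)) := by
    rw [Real.exp_nat_mul, Real.exp_log (by linarith)]
  calc (∏ v, (1 + p * dg E v)) * (1 - p) ^ M
      ≤ (1 + a) ^ Fintype.card V * Real.exp (-(p * M)) :=
        mul_le_mul h2 h3 (pow_nonneg (by linarith) _) (by positivity)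
    _ = _ := by rw [h5, ← Real.exp_add]; congr 1

end Pool.Agent.Hq78.LC
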